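import Pool.Agent.L0h4.TW.Fac

/-!
# The weighted sums for the character `e7`
-/

set_option autoImplicit false
set_option linter.unusedSectionVars false

open Filter
open scoped Topology PeriodPair

namespace Pool.Agent.L0h4.TW

open Pool.Agent.Y698 Pool.Agent.Y698.SG
open H667R3 Pool.Agent.W192.HK Pool.Agent.TH936.CM Pool.Agent.TH936.PU

variable {L : PeriodPair} {Ω : ℂ} {Γ : Type*} [LinearOrderedCommGroupWithZero Γ]
  {v : Valuation ℂ Γ}

theorem Gv_Ev (hL : IsLat L RR Ω) [Fintype (RR ⧸ sp fR)] {T : ℂ}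
    (hT : Tendsto (fun δ : ℝ => GG Ω δ 1) (𝓝[>] 0) (𝓝 T)) {n : RR} (hn0 : n ≠ 0)
    (hn : IsCoprime fR n) (x : RR) :
    Gv L Ω T (Ω * x / (n : ℂ)) =
      ∑ y : RR ⧸ sp fR, e7 y.out * Ev Ω (Ω * y.out / fR + Ω * x / (n : ℂ)) := by
  have h1 := lim_G hL hT (pt_ok hL hn0 hn x)
  have h2 : Tendsto (fun δ : ℝ => GI Ω δ (Ω * x / (n : ℂ))) (𝓝[>] 0)
      (𝓝 (∑ y : RR ⧸ sp fR, e7 y.out * Ev Ω (Ω * y.out / fR + Ω * x / (n : ℂ)))) := by
    unfold GI
    refine tendsto_finsetSum _ fun y _ => Tendsto.const_mul _ ?_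
    exact ev_lim hL ((Tor.of hL fR_ne y.out).add hL (Tor.of hL hn0 x))
  exact tendsto_nhds_unique h1 h2

lemma card_spX (γ : RR) : (Nat.card (RR ⧸ sp γ) : ℤ) = nR γ := by
  have hb := Pool.Agent.W287.HK.h_basic RR al qr
  have h6 := hb.2.2.2.2.1 γ
  unfold nm at h6
  rw [normSq_coe] at h6
  exact_mod_cast h6

/-- pairs of residues -/
lemma bij_crt {f n : RR} (hf : f ≠ 0) (hn : n ≠ 0) (hc : IsCoprime f n) :
    Function.Bijective (fun p : (RR ⧸ sp n) × (RR ⧸ sp f) =>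
      Ideal.Quotient.mk (sp (f * n)) (f * p.1.out + n * p.2.out)) := by
  have hfn : f * n ≠ 0 := mul_ne_zero hf hn
  have f1 := fin_quot hf
  have f2 := fin_quot hn
  have f3 := fin_quot hfn
  let _ : Fintype (RR ⧸ sp f) := Fintype.ofFinite _
  let _ : Fintype (RR ⧸ sp n) := Fintype.ofFinite _
  let _ : Fintype (RR ⧸ sp (f * n)) := Fintype.ofFinite _
  rw [Fintype.bijective_iff_injective_and_card]
  constructor
  · rintro ⟨x, y⟩ ⟨x', y'⟩ h
    have h1 : (f * x.out + n * y.out) - (f * x'.out + n * y'.out) ∈ sp (f * n) := by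
      rw [← Ideal.Quotient.mk_eq_mk_iff_sub_mem]
      exact h
    rw [Ideal.mem_span_singleton] at h1
    have e : (f * x.out + n * y.out) - (f * x'.out + n * y'.out) =
        f * (x.out - x'.out) + n * (y.out - y'.out) := by ring
    rw [e] at h1
    have h2 : n ∣ x.out - x'.out := by
      have h3 : n ∣ f * (x.out - x'.out) := by
        have := (Dvd.intro_left f rfl : n ∣ f * n).trans h1
        exact (dvd_add_left (Dvd.intro _ rfl)).1 this
      exact hc.symm.dvd_of_dvd_mul_left h3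
    have h4 : f ∣ y.out - y'.out := by
      have h3 : f ∣ n * (y.out - y'.out) := by
        have := (Dvd.intro n rfl : f ∣ f * n).trans h1
        exact (dvd_add_right (Dvd.intro _ rfl)).1 this
      exact hc.dvd_of_dvd_mul_left h3
    have h5 : x = x' := by
      rw [← Ideal.Quotient.mk_out x, ← Ideal.Quotient.mk_out x',
        Ideal.Quotient.mk_eq_mk_iff_sub_mem, Ideal.mem_span_singleton]
      exact h2
    have h6 : y = y' := by
      rw [← Ideal.Quotient.mk_out y, ← Ideal.Quotient.mk_out y',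
        Ideal.Quotient.mk_eq_mk_iff_sub_mem, Ideal.mem_span_singleton]
      exact h4
    rw [h5, h6]
  · have c1 := card_spX f
    have c2 := card_spX n
    have c3 := card_spX (f * n)
    rw [nR_mul, ← c1, ← c2] at c3
    rw [Fintype.card_prod, ← Nat.card_eq_fintype_card, ← Nat.card_eq_fintype_card,
      ← Nat.card_eq_fintype_card]
    have : (Nat.card (RR ⧸ sp (f * n)) : ℤ) = ((Nat.card (RR ⧸ sp n) * Nat.card (RR ⧸ sp f) : ℕ) : ℤ) := by
      rw [c3]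
      push_cast
      ring
    exact_mod_cast this.symm

theorem Bg_Bv (hL : IsLat L RR Ω) [Fintype (RR ⧸ sp fR)] {T : ℂ}
    (hT : Tendsto (fun δ : ℝ => GG Ω δ 1) (𝓝[>] 0) (𝓝 T)) {n : RR} (hn0 : n ≠ 0)
    (hn : IsCoprime fR n) {φ : RR → ℂ} (hφ : Pe n φ) {κ : ℂ} (hκ : ∀ x, φ (fR * x) = κ * φ x) :
    Bv Ω (fR * n) (fun z => e7 z * φ z) = e7 n * κ * Bg L Ω T n φ := by
  have hfn : fR * n ≠ 0 := mul_ne_zero fR_ne hn0
  have f2 := fin_quot hn0
  have f3 := fin_quot hfn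
  let _ : Fintype (RR ⧸ sp n) := Fintype.ofFinite _
  let _ : Fintype (RR ⧸ sp (fR * n)) := Fintype.ofFinite _
  have hf' := coe_ne fR_ne
  have hn' := coe_ne hn0
  have hp : Pe (fR * n) (fun z => e7 z * φ z) :=
    Pe.mul (Pe.mono (Dvd.intro _ rfl) (fun x y h => e7_per h)) (hφ.mono (Dvd.intro_left _ rfl))
  rw [Bv_eq, Bg_eq, sum_rep _ (bij_crt fR_ne hn0 hn)
    (fun z : RR => (e7 z * φ z) * Ev Ω (Ω * z / ((fR * n : RR) : ℂ)))
    (fun x y h => Bv_term hL hfn hp h), Fintype.sum_prod_type, Finset.mul_sum]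
  refine Finset.sum_congr rfl fun x _ => ?_
  rw [Gv_Ev hL hT hn0 hn x.out, Finset.mul_sum, Finset.mul_sum]
  refine Finset.sum_congr rfl fun y _ => ?_
  have e1 : e7 (fR * x.out + n * y.out) = e7 n * e7 y.out := by
    rw [← e7_mul]
    apply e7_per
    rw [add_sub_cancel_right, Ideal.mem_span_singleton']
    exact ⟨x.out, mul_comm _ _⟩
  have e2 : φ (fR * x.out + n * y.out) = κ * φ x.out := by
    rw [← hκ]
    apply hφ
    rw [add_sub_cancel_left, Ideal.mem_span_singleton']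
    exact ⟨y.out, mul_comm _ _⟩
  have e3 : Ω * ((fR * x.out + n * y.out : RR) : ℂ) / ((fR * n : RR) : ℂ) =
      Ω * y.out / fR + Ω * x.out / (n : ℂ) := by
    push_cast
    field_simp
    ring
  rw [e1, e2, e3]
  ring

lemma fin_congr {I J : Ideal RR} (h : I = J) (F : RR → ℂ) :
    ∑ᶠ x : RR ⧸ I, F x.out = ∑ᶠ x : RR ⧸ J, F x.out := by
  subst h
  rfl

lemma Bv_neg (hL : IsLat L RR Ω) {n : RR} (hn : n ≠ 0) (φ : RR → ℂ) :
    Bv Ω (-n) φ = -Bv Ω n φ := by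
  unfold Bv
  rw [fin_congr (Ideal.span_singleton_neg n) (fun x => φ x * Ev Ω (Ω * x / ((-n : RR) : ℂ))),
    ← finsum_neg_distrib]
  refine finsum_congr fun x => ?_
  have e : Ω * ((x.out : RR) : ℂ) / ((-n : RR) : ℂ) = -(Ω * x.out / (n : ℂ)) := by
    push_cast
    rw [div_neg]
  rw [e, Ev_neg hL (Tor.of hL hn x.out)]
  ring

section
variable {Q P : Finset ℕ} {ϖ : ℕ → RR}

lemma Dt.cop7 (h : Dt Q P ϖ) : IsCoprime fR (∏ i ∈ ix Q P, pfx Q ϖ i) := by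
  have h1 := h.fx7.cop (Finset.mem_insert_self _ _) (Finset.subset_insert _ _) h.ix7
  rw [pf7_o, Finset.prod_congr rfl (fun i hi => h.pf hi)] at h1
  exact (IsCoprime.neg_left_iff _ _).1 h1

/-- **the value of the weighted sum** -/
theorem rd_Bg (hl : LD L Ω) (hv : v al < 1) [Fintype (RR ⧸ sp fR)] {T : ℂ}
    (hT : Tendsto (fun δ : ℝ => GG Ω δ 1) (𝓝[>] 0) (𝓝 T)) (h : Dt Q P ϖ) :
    Rd v (Bg L Ω T (∏ i ∈ ix Q P, pfx Q ϖ i) (fun m => ∏ i ∈ ix Q P, sy (pfx Q ϖ i) m) /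
      2 ^ (ix Q P).card) (gd (mc (pfx Q ϖ)) (mr (pfx Q ϖ)) (ix Q P)) := by
  have hL := hl.lat
  have t2 := v_two_lt hv
  have hind := indX hl hv h.fx7 h.rec7 _ (Finset.Subset.refl _) (Finset.insert_nonempty _ _)
  have e1 : ∏ i ∈ insert (7, false) (ix Q P), pf7 Q ϖ i = -(fR * ∏ i ∈ ix Q P, pfx Q ϖ i) := by
    rw [Finset.prod_insert h.ix7, pf7_o, Finset.prod_congr rfl (fun i hi => h.pf hi)]
    ring
  have e2 : (fun m => ∏ i ∈ insert (7, false) (ix Q P), sy (pf7 Q ϖ i) m) =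
      fun m => e7 m * ∏ i ∈ ix Q P, sy (pfx Q ϖ i) m := by
    funext m
    rw [Finset.prod_insert h.ix7, pf7_o, sy_seven, Finset.prod_congr rfl
      (fun i hi => by rw [h.pf hi])]
  have hpn := prod_ne h.fx
  set κ : ℂ := ∏ i ∈ ix Q P, sy (pfx Q ϖ i) fR with hκd
  have hκ : ∀ x, ∏ i ∈ ix Q P, sy (pfx Q ϖ i) (fR * x) =
      κ * ∏ i ∈ ix Q P, sy (pfx Q ϖ i) x := by
    intro x
    rw [hκd, ← Finset.prod_mul_distrib]
    exact Finset.prod_congr rfl fun i hi => (h.fx.pd i hi).mul _ _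
  have hφ : Pe (∏ i ∈ ix Q P, pfx Q ϖ i) (fun m => ∏ i ∈ ix Q P, sy (pfx Q ϖ i) m) :=
    Pe.prod fun p _ => sy_per (pfx Q ϖ p)
  have hκ1 : κ = 1 ∨ κ = -1 := by
    refine (sgn_prod fun i hi => sy_sgn ?_).1
    intro hm
    have h1 := h.ne (Finset.mem_insert_self (7, false) (ix Q P)) (Finset.mem_insert_of_mem hi)
      (fun h2 => h.ix7 (h2 ▸ hi))
    rw [pf7_o, h.pf hi] at h1
    exact h1 (neg_mem hm)
  have he1 : e7 (∏ i ∈ ix Q P, pfx Q ϖ i) = 1 ∨ e7 (∏ i ∈ ix Q P, pfx Q ϖ i) = -1 :=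
    sq_one_cases (e7_sq (not_mem_of_cop h.cop7))
  rw [e1, e2, Bv_neg hL (mul_ne_zero fR_ne hpn), Bg_Bv hL hT hpn h.cop7 hφ hκ,
    Finset.card_insert_of_notMem h.ix7] at hind
  -- the determinant
  have hrec : Recip (fun i => nt (pf7 Q ϖ i)) (mm (pf7 Q ϖ)) (insert (7, false) (ix Q P)) :=
    fun i hi j hj hij => h.rec7 i hi j hj hij
  have hd : gd (fun i => nt (pf7 Q ϖ i)) (mm (pf7 Q ϖ)) (insert (7, false) (ix Q P)) =
      gd (mc (pfx Q ϖ)) (mr (pfx Q ϖ)) (ix Q P) := by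
    rw [gd_root h.ix7 hrec (by
      show nt (pf7 Q ϖ (7, false)) = 1
      rw [pf7_o, nt_D1 D1_seven]
      rfl) h.ntsum]
    unfold gd
    congr 1
    ext i j
    have hi := i.2
    have hj := j.2
    simp only [Matrix.of_apply]
    have e3 : ∀ k ∈ ix Q P, mm (pf7 Q ϖ) i k = mr (pfx Q ϖ) i k := by
      intro k hk
      unfold mm mr
      rw [h.pf hk, h.pf hi]
    have e4 : mm (pf7 Q ϖ) i (7, false) = mc (pfx Q ϖ) i := by
      unfold mm mc
      rw [pf7_o, sy_seven, h.pf hi]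
    rw [e4, e3 _ hj]
    have e5 : ∑ k ∈ (ix Q P).erase i, mm (pf7 Q ϖ) i k = ∑ k ∈ (ix Q P).erase i,
        mr (pfx Q ϖ) i k := Finset.sum_congr rfl fun k hk => e3 k (Finset.mem_of_mem_erase hk)
    rw [e5]
  rw [hd] at hind
  generalize hB : Bg L Ω T (∏ i ∈ ix Q P, pfx Q ϖ i) (fun m => ∏ i ∈ ix Q P, sy (pfx Q ϖ i) m) = B
    at hind ⊢
  have e6 : B / 2 ^ (ix Q P).card =
      -(e7 (∏ i ∈ ix Q P, pfx Q ϖ i) * κ) * (2 * (-(e7 (∏ i ∈ ix Q P, pfx Q ϖ i) * κ * B)) /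
        2 ^ ((ix Q P).card + 1)) := by
    rcases he1 with h1 | h1 <;> rcases hκ1 with h2 | h2 <;> rw [h1, h2, pow_succ'] <;> field_simp
  rw [e6]
  rcases sgn_mul he1 hκ1 with h1 | h1 <;> rw [h1]
  · have := Rd.neg t2 hind
    rw [h1] at this
    convert this using 1
    ring
  · rw [h1] at hind
    convert hind using 1
    ring

/-- the value in the nonsingular case -/
theorem v_Bg (hl : LD L Ω) (hv : v al < 1) [Fintype (RR ⧸ sp fR)] {T : ℂ}
    (hT : Tendsto (fun δ : ℝ => GG Ω δ 1) (𝓝[>] 0) (𝓝 T)) (h : Dt Q P ϖ) :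
    (NonSing Q P ϖ →
      v (Bg L Ω T (∏ i ∈ ix Q P, pfx Q ϖ i) (fun m => ∏ i ∈ ix Q P, sy (pfx Q ϖ i) m)) =
        v 2 ^ (ix Q P).card) ∧
    (¬ NonSing Q P ϖ →
      v (Bg L Ω T (∏ i ∈ ix Q P, pfx Q ϖ i) (fun m => ∏ i ∈ ix Q P, sy (pfx Q ϖ i) m)) <
        v 2 ^ (ix Q P).card) := by
  have h1 := rd_Bg (v := v) hl hv hT h
  have h2 : v 2 ^ (ix Q P).card ≠ 0 := pow_ne_zero _ ((Valuation.ne_zero_iff v).2 two_ne_zero)
  have h20 : (2 : ℂ) ^ (ix Q P).card ≠ 0 := pow_ne_zero _ two_ne_zero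
  generalize Bg L Ω T (∏ i ∈ ix Q P, pfx Q ϖ i) (fun m => ∏ i ∈ ix Q P, sy (pfx Q ϖ i) m) = B at h1 ⊢
  constructor
  · intro hg
    have h3 := Rd.fin (v := v) (T := 1) (a := B) (K := 1) (N := (ix Q P).card) (map_one v)
      one_ne_zero hg (by rw [one_mul, mul_one]; exact h1)
    rw [h3, map_one, one_mul]
  · intro hg
    unfold NonSing at hg
    rw [not_not] at hg
    rw [hg, Rd.zero_iff, map_div₀, map_pow] at h1
    have h3 : 0 < v 2 ^ (ix Q P).card := zero_lt_iff.2 h2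
    rwa [div_lt_one₀ h3] at h1

end

end Pool.Agent.L0h4.TW
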