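import Pool.Agent.L0h4.TW.Bgv
import Pool.Agent.Y698.SG.Wc
import Pool.Agent.Y949.SG.HCS

/-!
# The central values of the twists
-/

set_option autoImplicit false
set_option linter.unusedSectionVars false

open Filter
open scoped Topology PeriodPair

namespace Pool.Agent.L0h4.TW

open Pool.Agent.Y698 Pool.Agent.Y698.SG
open H667R3 Pool.Agent.W192.HK Pool.Agent.TH936.CM Pool.Agent.TH936.PU

/-- the primes used -/
structure Od (q : ℕ) : Prop where
  pr : q.Prime
  odd : q % 2 = 1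
  n7 : q ≠ 7

lemma InP.od {q : ℕ} (h : InP q) : Od q := ⟨h.pr, h.odd, h.ne7⟩

lemma SpP.od {q : ℕ} (h : SpP q) : Od q := ⟨h.pr, h.odd, h.n7⟩

lemma Od.not_seven {q : ℕ} (h : Od q) : ¬ (q : ℤ) ∣ 7 := by
  intro hd
  have h1 : q ∣ 7 := by exact_mod_cast hd
  exact h.n7 ((Nat.prime_dvd_prime_iff_eq h.pr (by norm_num)).1 h1)

lemma Od.gn {q : ℕ} (h : Od q) : Gn q := by
  refine ⟨?_, ?_, h.odd⟩
  · intro h0
    have h1 : nR ((q : ℕ) : RR) = nR 0 := by rw [h0]
    rw [nR_nat, nR_zero] at h1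
    have h2 : (q : ℤ) = 0 := pow_eq_zero_iff (two_ne_zero) |>.1 h1
    exact h.pr.ne_zero (by exact_mod_cast h2)
  · have h1 : IsCoprime ((7 : ℕ) : RR) ((q : ℕ) : RR) :=
      cop_cast ((Nat.coprime_primes (by norm_num) h.pr).2 h.n7.symm)
    have h2 : ((7 : ℕ) : RR) = fR * (-fR) := by
      have := fR_mul
      push_cast
      linear_combination this
    rw [h2] at h1
    exact h1.of_mul_left_left

lemma gn_prod {S : Finset ℕ} (h : ∀ q ∈ S, Od q) : Gn (∏ q ∈ S, q) := by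
  classical
  induction S using Finset.induction_on with
  | empty => exact Gn.one
  | insert q S hq ih =>
    rw [Finset.prod_insert hq]
    exact (h q (Finset.mem_insert_self _ _)).gn.mul
      (ih fun p hp => h p (Finset.mem_insert_of_mem hp))

/-- the root of the equation of `(1 + √-7) / 2` -/
lemma exists_rootX {p : ℕ} (h : Od p) (hsq : IsSquare (-7 : ZMod p)) :
    ∃ a : ZMod p, a ^ 2 = a - 2 ∧ 2 * a - 1 ≠ 0 := by
  have : Fact p.Prime := ⟨h.pr⟩
  have hm := h.odd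
  have h2 : (2 : ZMod p) ≠ 0 := by
    intro h0
    have h3 : ((2 : ℕ) : ZMod p) = 0 := by exact_mod_cast h0
    rw [ZMod.natCast_eq_zero_iff] at h3
    have h4 := (Nat.prime_dvd_prime_iff_eq h.pr Nat.prime_two).1 h3
    omega
  have h7 : (-7 : ZMod p) ≠ 0 := by
    intro h0
    have h3 : ((7 : ℕ) : ZMod p) = 0 := by
      push_cast
      linear_combination -h0
    rw [ZMod.natCast_eq_zero_iff] at h3
    have h4 := (Nat.prime_dvd_prime_iff_eq h.pr (by norm_num)).1 h3
    exact h.n7 h4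
  obtain ⟨s, hs⟩ := hsq
  refine ⟨(1 + s) / 2, ?_, ?_⟩
  · field_simp
    linear_combination -hs
  · have e : 2 * ((1 + s) / 2) - 1 = s := by
      field_simp
      ring
    rw [e]
    rintro rfl
    exact h7 (by rw [hs, mul_zero])

lemma quad_HCX {q : ℕ} (h : Od q) : HC 0 (sp (q : RR)) (fun I => qch q (nI I)) := by
  have : Fact q.Prime := ⟨h.pr⟩
  have hq2 : q ≠ 2 := by have := h.odd; omega
  set χ : DirichletCharacter ℂ q :=
    (quadraticChar (ZMod q)).ringHomComp (Int.castRingHom ℂ) with hχ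
  have hne : χ ≠ 1 := by
    intro h1
    have hch : ringChar (ZMod q) ≠ 2 := by rwa [ZMod.ringChar_zmod_n]
    obtain ⟨a, ha⟩ := FiniteField.exists_nonsquare hch
    have h2 : quadraticChar (ZMod q) a = -1 := quadraticChar_neg_one_iff_not_isSquare.2 ha
    have ha0 : a ≠ 0 := by
      rintro rfl
      exact ha ⟨0, by ring⟩
    have h3 : χ a = 1 := by rw [h1, MulChar.one_apply (isUnit_iff_ne_zero.2 ha0)]
    rw [hχ, MulChar.ringHomComp_apply, h2] at h3
    norm_num at h3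
  have h1 : HC 0 (sp (q : RR)) (chN χ) := by
    by_cases h7 : IsSquare (-7 : ZMod q)
    · obtain ⟨a, ha, h21⟩ := exists_rootX h h7
      exact Pool.Agent.Y949.SG.chN_HC_split h.pr ha h21 hne
    · exact chN_HC h.pr hq2 h7 hne
  convert h1 using 1
  funext I
  unfold chN qch
  rw [hχ, MulChar.ringHomComp_apply, ← jacobiSym.legendreSym.to_jacobiSym]
  unfold legendreSym
  rw [Int.cast_natCast]
  rfl

lemma prod_HCX {N : ℕ} {X : Ideal RR → ℂ} (hX : HC 0 (sp (N : RR)) X) (S : Finset ℕ)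
    (hS : ∀ q ∈ S, Od q ∧ Nat.Coprime q N) :
    HC 0 (sp (((∏ q ∈ S, q) * N : ℕ) : RR)) (fun I => X I * ∏ q ∈ S, qch q (nI I)) := by
  classical
  have hbasic := Pool.Agent.W287.HK.h_basic
  have hcls := Pool.Agent.W571.HK.h_cls hbasic
  have hfp := Pool.Agent.W53.HK.h_fp hbasic hcls
  have hprod := Pool.Agent.W29.HK.h_prod hbasic hfp
  induction S using Finset.induction_on with
  | empty => simpa using hX
  | insert q S hq ih =>
    have ih' := ih fun p hp => hS p (Finset.mem_insert_of_mem hp)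
    obtain ⟨h1, h2⟩ := hS q (Finset.mem_insert_self _ _)
    have hcop : Nat.Coprime ((∏ p ∈ S, p) * N) q := by
      refine Nat.Coprime.mul_left ?_ h2.symm
      refine Nat.Coprime.prod_left fun p hp => ?_
      refine (Nat.coprime_primes (hS p (Finset.mem_insert_of_mem hp)).1.pr h1.pr).2 ?_
      exact fun h => hq (h ▸ hp)
    have h3 := hprod RR al qr 0 _ _ _ _ ih' (quad_HCX h1)
      ((Ideal.isCoprime_span_singleton_iff _ _).2 (cop_cast hcop))
    rw [Ideal.span_singleton_mul_span_singleton] at h3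
    have e1 : (((∏ p ∈ S, p) * N : ℕ) : RR) * (q : RR) =
        (((∏ p ∈ insert q S, p) * N : ℕ) : RR) := by
      rw [Finset.prod_insert hq]
      push_cast
      ring
    rw [e1] at h3
    convert h3 using 1
    funext I
    rw [Finset.prod_insert hq]
    ring

section
variable {Q P : Finset ℕ} {ϖ : ℕ → RR}

lemma prod_ix {M : Type*} [CommMonoid M] (hd : Disjoint Q P) (f : ℕ × Bool → M) :
    ∏ i ∈ ix Q P, f i = (∏ q ∈ Q, f (q, false)) * ∏ p ∈ P, (f (p, false) * f (p, true)) := by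
  have hd' : Disjoint ((Q ∪ P) ×ˢ ({false} : Finset Bool)) (P ×ˢ ({true} : Finset Bool)) := by
    rw [Finset.disjoint_left]
    intro i hi hj
    rw [Finset.mem_product, Finset.mem_singleton] at hi hj
    rw [hi.2] at hj
    exact absurd hj.2 (by simp)
  unfold ix
  rw [Finset.prod_union hd', Finset.prod_product, Finset.prod_product]
  simp only [Finset.prod_singleton]
  rw [Finset.prod_union hd, Finset.prod_mul_distrib, mul_assoc]

lemma pfx_Q {q : ℕ} (hq : q ∈ Q) (b : Bool) : pfx Q ϖ (q, b) = sg q * (q : RR) := if_pos hq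

lemma Dt.pfx_f (h : Dt Q P ϖ) {p : ℕ} (hp : p ∈ P) : pfx Q ϖ (p, false) = ϖ p := by
  unfold pfx
  rw [if_neg (fun h1 => h.disj h1 hp)]
  rfl

lemma Dt.pfx_t (h : Dt Q P ϖ) {p : ℕ} (hp : p ∈ P) : pfx Q ϖ (p, true) = sg p * cj (ϖ p) := by
  unfold pfx
  rw [if_neg (fun h1 => h.disj h1 hp)]
  rfl

lemma sgz_prod {S : Finset ℕ} (hS : ∀ q ∈ S, q % 2 = 1) :
    ((∏ q ∈ S, sgz q = 1 ∧ (∏ q ∈ S, q) % 4 = 1) ∨ (∏ q ∈ S, sgz q = -1 ∧ (∏ q ∈ S, q) % 4 = 3)) := by
  classical
  induction S using Finset.induction_on with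
  | empty => left; simp
  | insert q S hq ih =>
    have ih' := ih fun p hp => hS p (Finset.mem_insert_of_mem hp)
    have h1 := hS q (Finset.mem_insert_self _ _)
    rw [Finset.prod_insert hq, Finset.prod_insert hq]
    have h2 : (sgz q = 1 ∧ q % 4 = 1) ∨ (sgz q = -1 ∧ q % 4 = 3) := by
      unfold sgz
      split_ifs with h3
      · left; exact ⟨rfl, h3⟩
      · right; exact ⟨rfl, by omega⟩
    rcases h2 with h2 | h2 <;> rcases ih' with h3 | h3
    · left; rw [h2.1, h3.1, Nat.mul_mod, h2.2, h3.2]; norm_num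
    · right; rw [h2.1, h3.1, Nat.mul_mod, h2.2, h3.2]; norm_num
    · right; rw [h2.1, h3.1, Nat.mul_mod, h2.2, h3.2]; norm_num
    · left; rw [h2.1, h3.1, Nat.mul_mod, h2.2, h3.2]; norm_num

/-- the product of the prime elements -/
theorem Dt.prod_pfx (h : Dt Q P ϖ) (h4 : (∏ q ∈ Q ∪ P, q) % 4 = 1) :
    ∏ i ∈ ix Q P, pfx Q ϖ i = ((∏ q ∈ Q ∪ P, q : ℕ) : RR) := by
  have h1 : ∏ q ∈ Q ∪ P, sgz q = 1 := by
    rcases sgz_prod (S := Q ∪ P) (fun q hq => by
      rcases Finset.mem_union.1 hq with h2 | h2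
      · exact (h.q q h2).odd
      · exact (h.p q h2).odd) with h2 | h2
    · exact h2.1
    · exfalso
      have := h2.2
      omega
  rw [prod_ix h.dis]
  have e1 : ∏ q ∈ Q, pfx Q ϖ (q, false) = ∏ q ∈ Q, (((sgz q : ℤ) : RR) * (q : RR)) :=
    Finset.prod_congr rfl fun q hq => by rw [pfx_Q hq, sg_coe]
  have e2 : ∏ p ∈ P, (pfx Q ϖ (p, false) * pfx Q ϖ (p, true)) =
      ∏ p ∈ P, (((sgz p : ℤ) : RR) * (p : RR)) := by
    refine Finset.prod_congr rfl fun p hp => ?_
    rw [h.pfx_f hp, h.pfx_t hp, sg_coe]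
    have h3 := mul_cj (ϖ p)
    rw [(h.cho p hp).1] at h3
    push_cast at h3
    linear_combination ((sgz p : ℤ) : RR) * h3
  rw [e1, e2, ← Finset.prod_union h.dis, Finset.prod_mul_distrib]
  have e3 : ∏ i ∈ Q ∪ P, ((sgz i : ℤ) : RR) = ((∏ q ∈ Q ∪ P, sgz q : ℤ) : RR) := by
    push_cast
    rfl
  rw [e3, h1]
  push_cast
  ring

/-- the product of the symbols -/
theorem Dt.prod_sy (h : Dt Q P ϖ) (x : RR) :
    ∏ i ∈ ix Q P, sy (pfx Q ϖ i) x = ∏ q ∈ Q ∪ P, qch q (nR x) := by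
  rw [prod_ix h.dis, Finset.prod_union h.dis]
  congr 1
  · refine Finset.prod_congr rfl fun q hq => ?_
    rw [pfx_Q hq, sy_congr (sp_sg q _), sy_inertX (h.q q hq)]
  · refine Finset.prod_congr rfl fun p hp => ?_
    rw [h.pfx_f hp, h.pfx_t hp, sy_congr (sp_sg p _)]
    exact sy_norm (h.p p hp).pr (h.cho p hp).1 x

lemma card_ixX (hd : Disjoint Q P) : (ix Q P).card = Q.card + 2 * P.card := by
  have hd' : Disjoint ((Q ∪ P) ×ˢ ({false} : Finset Bool)) (P ×ˢ ({true} : Finset Bool)) := by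
    rw [Finset.disjoint_left]
    intro i hi hj
    rw [Finset.mem_product, Finset.mem_singleton] at hi hj
    rw [hi.2] at hj
    exact absurd hj.2 (by simp)
  unfold ix
  rw [Finset.card_union_of_disjoint hd', Finset.card_product, Finset.card_product,
    Finset.card_union_of_disjoint hd]
  simp only [Finset.card_singleton]
  ring

lemma Dt.od (h : Dt Q P ϖ) : ∀ q ∈ Q ∪ P, Od q := by
  intro q hq
  rcases Finset.mem_union.1 hq with h2 | h2
  · exact (h.q q h2).od
  · exact (h.p q h2).od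

/-- **the central values of the quadratic twists** -/
theorem val_X (h : Dt Q P ϖ) (h4 : (∏ q ∈ Q ∪ P, q) % 4 = 1) :
    ∃ F : ℂ → ℂ, Differentiable ℂ F ∧
    (∀ z : ℂ, 3 / 2 < z.re → HasProd (fun p : Nat.Primes =>
      (1 - bc p * ((∏ q ∈ Q ∪ P, qch q (p : ℕ)) * ((p : ℕ) : ℂ) ^ (-z)) +
      ec p * ((∏ q ∈ Q ∪ P, qch q (p : ℕ)) * ((p : ℕ) : ℂ) ^ (-z)) ^ 2)⁻¹) (F z)) ∧
    ∀ (Γ : Type) [LinearOrderedCommGroupWithZero Γ] (v : Valuation ℂ Γ) (L : PeriodPair) (Ω : ℂ),
      LD L Ω → v al < 1 →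
      (NonSing Q P ϖ → v 2 * v ((starRingEnd ℂ) (F 1) / Ω) = v 2 ^ (Q.card + 2 * P.card)) ∧
      (¬ NonSing Q P ϖ →
        v 2 * v ((starRingEnd ℂ) (F 1) / Ω) < v 2 ^ (Q.card + 2 * P.card)) := by
  classical
  set S := Q ∪ P with hSdef
  have hS : ∀ q ∈ S, Od q := h.od
  rcases S.eq_empty_or_nonempty with hemp | hne
  · obtain ⟨F, g1, g2, g3, g4⟩ := val_triv
    have hQe : Q = ∅ := by
      rw [hSdef, Finset.union_eq_empty] at hemp
      exact hemp.1
    have hPe : P = ∅ := by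
      rw [hSdef, Finset.union_eq_empty] at hemp
      exact hemp.2
    refine ⟨F, g1, fun z hz => ?_, fun Γ _ v L Ω hL hv => ⟨fun _ => ?_, fun hn => ?_⟩⟩
    · have := prod_triv (g2 z hz)
      rw [hemp]
      simpa using this
    · rw [hQe, hPe, Finset.card_empty, mul_zero, add_zero, pow_zero]
      exact g4 Γ v L Ω hL hv
    · exfalso
      apply hn
      subst hQe hPe
      unfold NonSing
      have : ix (∅ : Finset ℕ) ∅ = ∅ := by simp [ix]
      rw [this]
      have h1 : ∀ (c : ℕ × Bool → ZMod 2) (r : ℕ × Bool → ℕ × Bool → ZMod 2), gd c r ∅ = 1 := by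
        intro c r
        unfold gd
        exact Matrix.det_isEmpty
      rw [h1]
      exact one_ne_zero
  · obtain ⟨q0, hq0⟩ := hne
    set S' := S.erase q0 with hS'
    have hSS : insert q0 S' = S := Finset.insert_erase hq0
    have hq0' : q0 ∉ S' := Finset.notMem_erase _ _
    have hS'' : ∀ q ∈ S', Od q ∧ Nat.Coprime q q0 := by
      intro q hq
      rw [hS', Finset.mem_erase] at hq
      exact ⟨hS q hq.2, (Nat.coprime_primes (hS q hq.2).pr (hS q0 hq0).pr).2 hq.1⟩
    have hHC := prod_HCX (quad_HCX (hS q0 hq0)) S' hS''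
    have eN : (∏ q ∈ S', q) * q0 = ∏ q ∈ S, q := by
      rw [← hSS, Finset.prod_insert hq0', mul_comm]
    have eX : (fun I : Ideal RR => qch q0 (nI I) * ∏ q ∈ S', qch q (nI I)) =
        fun I => ∏ q ∈ S, qch q (nI I) := by
      funext I
      conv_rhs => rw [← hSS, Finset.prod_insert hq0']
    rw [eN, eX] at hHC
    have hN := gn_prod hS
    have hN1 : ∏ q ∈ S, q ≠ 1 := by
      intro h1
      have h2 : q0 ∣ 1 := h1 ▸ Finset.dvd_prod_of_mem (fun q => q) hq0
      exact (hS q0 hq0).pr.one_lt.ne' (Nat.dvd_one.1 h2)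
    obtain ⟨F, g1, g2, g3⟩ := val_gen hN hN1 hHC (φ := fun m => ∏ q ∈ S, qch q m)
      (by
        intro g
        rw [map_prod]
        refine Finset.prod_congr rfl fun q _ => ?_
        rw [qch_conj, nI_sp']) two_pos
      (qprod_sq (fun q hq => (hS q hq).pr) fun q hq => (hS q hq).not_seven)
    refine ⟨F, g1, fun z hz => ?_, fun Γ _ v L Ω hL hv => ?_⟩
    · refine prod_gen (f := fun n => ∏ q ∈ S, qch q (n : ℤ)) ?_ ?_ (g2 z hz)
      · simp [qch_one]
      · intro m n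
        rw [← Finset.prod_mul_distrib]
        refine Finset.prod_congr rfl fun q _ => ?_
        push_cast
        exact qch_mul _ _ _
    · have := fin_quot fR_ne
      let _ : Fintype (RR ⧸ sp fR) := Fintype.ofFinite _
      obtain ⟨F0, -, -, k3⟩ := val_one
      have hT := k3 L Ω hL.lat
      rw [g3 Γ v L Ω hL hv _ hT, BB_Bg _ (h.prod_pfx h4).symm _
        (fun m => ∏ i ∈ ix Q P, sy (pfx Q ϖ i) m) (fun x => h.prod_sy x), ← card_ixX h.dis]
      exact v_Bg hL hv hT h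

end

end Pool.Agent.L0h4.TW
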