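import Pool.Agent.L0h4.TW.Def

/-!
# The Eisenstein numbers of weight one at the torsion points
-/

set_option autoImplicit false
set_option linter.unusedSectionVars false

open Filter
open scoped Topology PeriodPair

namespace Pool.Agent.L0h4.TW

open Pool.Agent.Y698 Pool.Agent.Y698.SG
open H667R3 Pool.Agent.W192.HK Pool.Agent.TH936.CM Pool.Agent.TH936.PU

variable {L : PeriodPair} {Ω : ℂ} {Γ : Type*} [LinearOrderedCommGroupWithZero Γ]
  {v : Valuation ℂ Γ}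

/-- the Eisenstein number -/
noncomputable def Ev (Ω u : ℂ) : ℂ := limUnder (𝓝[>] (0 : ℝ)) (fun δ : ℝ => EE RR Ω δ u)

/-- torsion points -/
def Tor (L : PeriodPair) (u : ℂ) : Prop := ∃ n : RR, n ≠ 0 ∧ (n : ℂ) * u ∈ L.lattice

lemma Tor.rep (hL : IsLat L RR Ω) {u : ℂ} (h : Tor L u) : ∃ n x : RR, n ≠ 0 ∧ u = Ω * x / n := by
  obtain ⟨n, hn, h1⟩ := h
  obtain ⟨x, hx⟩ := (hL.mem _).1 h1
  have hn0 := coe_ne hn
  exact ⟨n, x, hn, by rw [← hx]; field_simp⟩

lemma Tor.of (hL : IsLat L RR Ω) {n : RR} (hn : n ≠ 0) (x : RR) : Tor L (Ω * x / n) := by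
  have hn0 := coe_ne hn
  refine ⟨n, hn, ?_⟩
  have e : (n : ℂ) * (Ω * x / n) = Ω * x := by field_simp
  rw [e]
  exact hL.mem_mul x

lemma Tor.add (hL : IsLat L RR Ω) {u w : ℂ} (hu : Tor L u) (hw : Tor L w) : Tor L (u + w) := by
  obtain ⟨n, hn, h1⟩ := hu
  obtain ⟨m, hm, h2⟩ := hw
  refine ⟨n * m, mul_ne_zero hn hm, ?_⟩
  have e : ((n * m : RR) : ℂ) * (u + w) = m * (n * u) + n * (m * w) := by push_cast; ring
  rw [e]
  exact add_mem (hL.mul m _ h1) (hL.mul n _ h2)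

lemma Tor.neg {u : ℂ} (hu : Tor L u) : Tor L (-u) := by
  obtain ⟨n, hn, h1⟩ := hu
  exact ⟨n, hn, by rw [mul_neg]; exact neg_mem h1⟩

lemma Tor.sub (hL : IsLat L RR Ω) {u w : ℂ} (hu : Tor L u) (hw : Tor L w) : Tor L (u - w) := by
  rw [sub_eq_add_neg]
  exact hu.add hL hw.neg

lemma Tor.mul (hL : IsLat L RR Ω) {u : ℂ} (hu : Tor L u) (r : RR) : Tor L (r * u) := by
  obtain ⟨n, hn, h1⟩ := hu
  refine ⟨n, hn, ?_⟩
  have e : (n : ℂ) * (r * u) = r * (n * u) := by ring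
  rw [e]
  exact hL.mul r _ h1

lemma sum_EE_shift (hL : IsLat L RR Ω) (δ : ℝ) {n : RR} (hn : n ≠ 0) [Fintype (RR ⧸ sp n)]
    (x : RR) : ∑ t : RR ⧸ sp n, EE RR Ω δ (Ω * x / n + Ω * t.out / n) =
      ∑ t : RR ⧸ sp n, EE RR Ω δ (Ω * t.out / n) := by
  have hg : Function.Bijective (fun y : RR ⧸ sp n => Ideal.Quotient.mk (sp n) (x + y.out)) := by
    have e1 : (fun y : RR ⧸ sp n => Ideal.Quotient.mk (sp n) (x + y.out)) =
        fun y => (Equiv.addLeft (Ideal.Quotient.mk (sp n) x)) y := by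
      funext y
      rw [map_add, Ideal.Quotient.mk_out]
      rfl
    rw [e1]
    exact (Equiv.addLeft _).bijective
  rw [sum_rep _ hg (fun r : RR => EE RR Ω δ (Ω * r / n))]
  · refine Finset.sum_congr rfl fun y _ => ?_
    congr 1
    push_cast
    ring
  · intro a b hab
    apply EE_per hL
    have h3 := (div_mem_iff hL hn (a - b)).2 hab
    convert h3 using 1
    push_cast
    ring

lemma sum_EE_neg (hL : IsLat L RR Ω) (δ : ℝ) {n : RR} (hn : n ≠ 0) [Fintype (RR ⧸ sp n)]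
    (z : ℂ) : ∑ t : RR ⧸ sp n, EE RR Ω δ (z - Ω * t.out / n) =
      ∑ t : RR ⧸ sp n, EE RR Ω δ (z + Ω * t.out / n) := by
  have hg : Function.Bijective (fun y : RR ⧸ sp n => Ideal.Quotient.mk (sp n) (-y.out)) := by
    have e1 : (fun y : RR ⧸ sp n => Ideal.Quotient.mk (sp n) (-y.out)) = fun y => -y := by
      funext y
      rw [map_neg, Ideal.Quotient.mk_out]
    rw [e1]
    exact neg_involutive.bijective
  rw [sum_rep _ hg (fun r : RR => EE RR Ω δ (z - Ω * r / n))]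
  · refine Finset.sum_congr rfl fun y _ => ?_
    congr 1
    push_cast
    ring
  · intro a b hab
    apply EE_per hL
    have h3 := neg_mem ((div_mem_iff hL hn (a - b)).2 hab)
    convert h3 using 1
    push_cast
    ring

lemma sum_EE_zero (hL : IsLat L RR Ω) (δ : ℝ) {n : RR} (hn : n ≠ 0) [Fintype (RR ⧸ sp n)] :
    ∑ t : RR ⧸ sp n, EE RR Ω δ (Ω * t.out / n) = 0 := by
  have h := sum_EE_neg hL δ hn 0
  simp only [zero_sub, zero_add] at h
  simp only [EE_neg, Finset.sum_neg_distrib] at h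
  linear_combination -h / 2

/-- the value at a torsion point by second differences -/
lemma EE_sec (hL : IsLat L RR Ω) (δ : ℝ) {n : RR} (hn : n ≠ 0) [Fintype (RR ⧸ sp n)] (x : RR) :
    EE RR Ω δ (Ω * x / n) = -(1 / (2 * (Fintype.card (RR ⧸ sp n) : ℂ))) *
      ∑ t : RR ⧸ sp n, (EE RR Ω δ (Ω * x / n + Ω * t.out / n) +
        EE RR Ω δ (Ω * x / n - Ω * t.out / n) - 2 * EE RR Ω δ (Ω * x / n)) := by
  have hc : (Fintype.card (RR ⧸ sp n) : ℂ) ≠ 0 := by
    rw [Nat.cast_ne_zero]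
    exact Fintype.card_ne_zero
  rw [Finset.sum_sub_distrib, Finset.sum_add_distrib, sum_EE_neg hL δ hn, sum_EE_shift hL δ hn,
    sum_EE_zero hL δ hn, Finset.sum_const, Finset.card_univ, nsmul_eq_mul]
  field_simp
  ring

theorem exists_lim (hL : IsLat L RR Ω) {u : ℂ} (hu : Tor L u) :
    ∃ l : ℂ, Tendsto (fun δ : ℝ => EE RR Ω δ u) (𝓝[>] 0) (𝓝 l) := by
  by_cases hz : u ∈ L.lattice
  · refine ⟨0, ?_⟩
    have h1 : ∀ δ : ℝ, EE RR Ω δ u = 0 := by
      intro δ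
      have h2 : EE RR Ω δ u = EE RR Ω δ 0 := EE_per hL δ (by rwa [sub_zero])
      have h3 : EE RR Ω δ 0 = -EE RR Ω δ 0 := by
        conv_lhs => rw [← neg_zero, EE_neg]
      rw [h2]
      linear_combination h3 / 2
    simp only [h1]
    exact tendsto_const_nhds
  obtain ⟨n, x, hn, rfl⟩ := hu.rep hL
  have f1 := fin_quot hn
  let _ : Fintype (RR ⧸ sp n) := Fintype.ofFinite _
  refine ⟨-(1 / (2 * (Fintype.card (RR ⧸ sp n) : ℂ))) * ∑ t : RR ⧸ sp n,
    (∑' β : RR, (1 / (Ω * x / n + Ω * t.out / n + Ω * β) +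
      1 / (Ω * x / n - Ω * t.out / n + Ω * β) - 2 * (1 / (Ω * x / n + Ω * β)))), ?_⟩
  have h1 : (fun δ : ℝ => EE RR Ω δ (Ω * x / n)) = fun δ : ℝ =>
      -(1 / (2 * (Fintype.card (RR ⧸ sp n) : ℂ))) *
      ∑ t : RR ⧸ sp n, (EE RR Ω δ (Ω * x / n + Ω * t.out / n) +
        EE RR Ω δ (Ω * x / n - Ω * t.out / n) - 2 * EE RR Ω δ (Ω * x / n)) := by
    funext δ
    exact EE_sec hL δ hn x
  rw [h1]
  exact Tendsto.const_mul _ (tendsto_finsetSum _ fun t _ => lim_sec hL hz)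

theorem ev_lim (hL : IsLat L RR Ω) {u : ℂ} (hu : Tor L u) :
    Tendsto (fun δ : ℝ => EE RR Ω δ u) (𝓝[>] 0) (𝓝 (Ev Ω u)) := by
  obtain ⟨l, hl⟩ := exists_lim hL hu
  have := hl.limUnder_eq
  unfold Ev
  rwa [this]

lemma Ev_per (hL : IsLat L RR Ω) {z w : ℂ} (h : w - z ∈ L.lattice) : Ev Ω w = Ev Ω z := by
  unfold Ev
  congr 1
  have : (fun δ : ℝ => EE RR Ω δ w) = fun δ : ℝ => EE RR Ω δ z := by
    funext δ
    exact EE_per hL δ h
  rw [this]

lemma Ev_neg (hL : IsLat L RR Ω) {u : ℂ} (hu : Tor L u) : Ev Ω (-u) = -Ev Ω u := by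
  refine tendsto_nhds_unique (ev_lim hL hu.neg) ?_
  simp only [EE_neg]
  exact (ev_lim hL hu).neg

lemma Ev_zero (hL : IsLat L RR Ω) {u : ℂ} (hu : u ∈ L.lattice) : Ev Ω u = 0 := by
  have h0 : Tor L 0 := ⟨1, one_ne_zero, by rw [mul_zero]; exact zero_mem _⟩
  have h1 : Ev Ω u = Ev Ω 0 := Ev_per hL (by rwa [sub_zero])
  have h2 := Ev_neg hL h0
  rw [neg_zero] at h2
  rw [h1]
  linear_combination h2 / 2

lemma tends_div {c : ℝ} (hc : 0 < c) : Tendsto (fun δ : ℝ => δ / c) (𝓝[>] 0) (𝓝[>] 0) := by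
  rw [tendsto_nhdsWithin_iff]
  constructor
  · have h7 : Continuous (fun δ : ℝ => δ / c) := by fun_prop
    have h8 := (h7.tendsto 0).mono_left (nhdsWithin_le_nhds (s := Set.Ioi 0))
    simpa using h8
  · filter_upwards [self_mem_nhdsWithin] with δ (hδ : 0 < δ)
    show 0 < δ / c
    positivity

/-- the distribution relation -/
theorem Ev_dist (hL : IsLat L RR Ω) {a : RR} (ha : a ≠ 0) [Fintype (RR ⧸ sp a)] {z : ℂ}
    (hz : Tor L z) : ∑ q : RR ⧸ sp a, Ev Ω (z + Ω * q.out / a) = a * Ev Ω (a * z) := by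
  have ha0 := coe_ne ha
  have hcn : 0 < Complex.normSq (a : ℂ) := Complex.normSq_pos.2 ha0
  have l1 : Tendsto (fun δ : ℝ => ∑ q : RR ⧸ sp a, EE RR Ω δ (z + Ω * q.out / a)) (𝓝[>] 0)
      (𝓝 (∑ q : RR ⧸ sp a, Ev Ω (z + Ω * q.out / a))) :=
    tendsto_finsetSum _ fun q _ => ev_lim hL (hz.add hL (Tor.of hL ha _))
  have l2 : Tendsto (fun δ : ℝ => a * EE RR Ω (δ / Complex.normSq a) (a * z)) (𝓝[>] 0)
      (𝓝 (a * Ev Ω (a * z))) :=
    ((ev_lim hL (hz.mul hL a)).comp (tends_div hcn)).const_mul _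
  refine tendsto_nhds_unique l1 (l2.congr' ?_)
  filter_upwards [self_mem_nhdsWithin] with δ (hδ : 0 < δ)
  exact (EE_distA hL hδ a ha z).symm

/-- second differences -/
theorem Ev_sec (hL : IsLat L RR Ω) {z t : ℂ} (hz : Tor L z) (ht : Tor L t) (h0 : z ∉ L.lattice)
    (ht0 : t ∉ L.lattice) (h1 : z + t ∉ L.lattice) (h2 : z - t ∉ L.lattice) :
    Ev Ω (z + t) + Ev Ω (z - t) - 2 * Ev Ω z = Dd L z t := by
  refine tendsto_nhds_unique ?_ (lim_Dd hL h0 ht0 h1 h2)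
  exact ((ev_lim hL (hz.add hL ht)).add (ev_lim hL (hz.sub hL ht))).sub
    ((ev_lim hL hz).const_mul 2)

lemma tB_tor (hL : IsLat L RR Ω) : Tor L (tB Ω) := by
  refine ⟨2, ?_, ?_⟩
  · intro h
    have := congrArg (fun t : RR => (t : ℂ)) h
    have h2 : ((2 : RR) : ℂ) = 2 := rfl
    simp only [h2] at this
    exact two_ne_zero this
  · have h2 : ((2 : RR) : ℂ) = 2 := rfl
    rw [h2]
    exact two_tB hL

/-- the value at the multiple by `bl` -/
theorem Ev_bl (hL : IsLat L RR Ω) {u : ℂ} (hu : Tor L u) (h0 : u ∉ L.lattice)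
    (h1 : u + tB Ω ∉ L.lattice) :
    bl * Ev Ω (bl * u) = 2 * Ev Ω u + (1 / 2) * Dd L u (tB Ω) := by
  classical
  have h2t := two_tB hL
  have h2 : u - tB Ω ∉ L.lattice := by
    intro h
    apply h1
    have := add_mem h h2t
    convert this using 1
    ring
  have hs := Ev_sec hL hu (tB_tor hL) h0 (tB_notMem hL) h1 h2
  have hp : Ev Ω (u - tB Ω) = Ev Ω (u + tB Ω) := Ev_per hL (by
    have := neg_mem h2t
    convert this using 1
    ring)
  rw [hp] at hs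
  have hb0 : bR ≠ 0 := fun h => bl_ne (by rw [← bR_coe, h]; rfl)
  have f1 := fin_quot hb0
  let _ : Fintype (RR ⧸ sp bR) := Fintype.ofFinite _
  have hd := Ev_dist hL hb0 hu
  rw [bR_coe] at hd
  -- the two classes modulo `bR`
  have hbl := bl_ne
  have hcls : ∀ q : RR ⧸ sp bR, q = 0 ∨ q = 1 := by
    intro q
    obtain ⟨r, rfl⟩ := Ideal.Quotient.mk_surjective q
    have h3 : bl * (Ω * r / bl) ∈ L.lattice := by
      have e : bl * (Ω * r / bl) = Ω * r := by field_simp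
      rw [e]
      exact hL.mem_mul r
    rcases ker_bl hL h3 with h4 | h4
    · left
      rw [← bR_coe, div_mem_iff hL hb0] at h4
      exact Ideal.Quotient.eq_zero_iff_mem.2 h4
    · right
      have e : Ω * r / bl - tB Ω = Ω * ((r - 1 : RR) : ℂ) / (bR : ℂ) := by
        rw [bR_coe]
        unfold tB
        push_cast
        ring
      rw [e, div_mem_iff hL hb0] at h4
      have := (Ideal.Quotient.mk_eq_mk_iff_sub_mem r 1).2 h4
      rw [this, map_one]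
  have h01 : (0 : RR ⧸ sp bR) ≠ 1 := by
    intro h
    have h3 : (1 : RR) ∈ sp bR := by
      rw [← Ideal.Quotient.eq_zero_iff_mem, map_one]
      exact h.symm
    exact not_dvd_one bR_nu h3
  have huniv : (Finset.univ : Finset (RR ⧸ sp bR)) = {0, 1} := by
    ext q
    simp only [Finset.mem_univ, Finset.mem_insert, Finset.mem_singleton, true_iff]
    exact hcls q
  rw [huniv, Finset.sum_insert (by rwa [Finset.mem_singleton]), Finset.sum_singleton] at hd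
  have e0 : Ev Ω (u + Ω * (Quotient.out (0 : RR ⧸ sp bR)) / bl) = Ev Ω u := Ev_per hL (by
    have h3 : (Quotient.out (0 : RR ⧸ sp bR)) ∈ sp bR := by
      rw [← Ideal.Quotient.eq_zero_iff_mem, Ideal.Quotient.mk_out]
    have h4 := (div_mem_iff hL hb0 _).2 h3
    rw [bR_coe] at h4
    convert h4 using 1
    ring)
  have e1 : Ev Ω (u + Ω * (Quotient.out (1 : RR ⧸ sp bR)) / bl) = Ev Ω (u + tB Ω) := Ev_per hL (by
    have h3 : (Quotient.out (1 : RR ⧸ sp bR)) - 1 ∈ sp bR := by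
      rw [← Ideal.Quotient.mk_eq_mk_iff_sub_mem, Ideal.Quotient.mk_out, map_one]
    have h4 := (div_mem_iff hL hb0 _).2 h3
    rw [bR_coe] at h4
    convert h4 using 1
    unfold tB
    push_cast
    ring)
  rw [e0, e1] at hd
  linear_combination -hd + (1 / 2 : ℂ) * hs

end Pool.Agent.L0h4.TW
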