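import Pool.Agent.Y698.SG.Wn

/-!
# All the positive quadratic twists of `X_0(49)` by `D ≡ 1 mod 4` prime to 7: definitions

The prime elements of `RR`, the ring of integers of `ℚ(√-7)`, are normalised by `≡ 1` modulo `aR ^ 2`.
-/

set_option autoImplicit false
set_option linter.unusedSectionVars false

namespace Pool.Agent.L0h4.TW

open Pool.Agent.Y698 Pool.Agent.Y698.SG
open H667R3 Pool.Agent.W192.HK Pool.Agent.TH936.CM Pool.Agent.TH936.PU

/-- the odd primes which are inert in `ℚ(√-7)` -/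
structure InP (q : ℕ) : Prop where
  pr : q.Prime
  odd : q % 2 = 1
  ns : ¬ IsSquare (-7 : ZMod q)

/-- the odd primes `≠ 7` which split in `ℚ(√-7)` -/
structure SpP (p : ℕ) : Prop where
  pr : p.Prime
  odd : p % 2 = 1
  n7 : p ≠ 7
  sq : IsSquare (-7 : ZMod p)

/-- the sign `(-1) ^ ((p - 1) / 2)` -/
noncomputable def sg (p : ℕ) : RR := if p % 4 = 1 then 1 else -1

/-- normalised elements: `≡ 1` modulo `aR ^ 2` -/
def N1 (x : RR) : Prop := ∃ u : RR, x = 1 + aR ^ 2 * u

/-- a choice of a normalised generator of one of the two primes above every `p` of `P` -/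
def Cho (ϖ : ℕ → RR) (P : Finset ℕ) : Prop := ∀ p ∈ P, nR (ϖ p) = p ∧ N1 (ϖ p)

/-- the normalised generators of the primes of `RR` above the primes of `Q` (inert) and `P` (split),
indexed by `ix Q P`: the index `(q, false)` for `q ∈ Q` and `(p, false)`, `(p, true)` for `p ∈ P` -/
noncomputable def pfx (Q : Finset ℕ) (ϖ : ℕ → RR) (i : ℕ × Bool) : RR :=
  if i.1 ∈ Q then sg i.1 * (i.1 : RR) else if i.2 then sg i.1 * cj (ϖ i.1) else ϖ i.1

/-- the condition: the determinant over `𝔽₂` of the matrix with the entries `lg (sy (π j) (π i))` off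
the diagonal, and `lg (e7 (π i)) + ∑_{j ≠ i} lg (sy (π j) (π i))` on the diagonal, is not zero -/
def NonSing (Q P : Finset ℕ) (ϖ : ℕ → RR) : Prop :=
  gd (mc (pfx Q ϖ)) (mr (pfx Q ϖ)) (ix Q P) ≠ 0

end Pool.Agent.L0h4.TW
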