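import Pool.Agent.L0h4.TW.Ev

/-!
# The Eisenstein numbers at the points of odd order modulo two
-/

set_option autoImplicit false
set_option linter.unusedSectionVars false

open Filter
open scoped Topology PeriodPair

namespace Pool.Agent.L0h4.TW

open Pool.Agent.Y698 Pool.Agent.Y698.SG
open H667R3 Pool.Agent.W192.HK Pool.Agent.TH936.CM Pool.Agent.TH936.PU

variable {L : PeriodPair} {Ω : ℂ} {Γ : Type*} [LinearOrderedCommGroupWithZero Γ]
  {v : Valuation ℂ Γ}

lemma odd_ne {n : RR} (hn : IsCoprime (2 : RR) n) : n ≠ 0 := by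
  rintro rfl
  exact two_nu (isCoprime_zero_right.1 hn)

lemma odd_v (hv : v al < 1) {n : RR} (hn : IsCoprime (2 : RR) n) : v (n : ℂ) = 1 := by
  obtain ⟨a, b, hab⟩ := hn
  have e := congrArg (fun t : RR => (t : ℂ)) hab
  have h2 : ((2 : RR) : ℂ) = 2 := rfl
  push_cast [h2] at e
  have e' : (b : ℂ) * n = 1 - 2 * a := by
    linear_combination e
  have h3 : v ((b : ℂ) * n) = 1 := by
    rw [e', Valuation.map_sub_eq_of_lt_left v, map_one]
    rw [map_one]
    exact v_mul_lt' (v_two_lt hv) (v_RR hv a)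
  rw [map_mul] at h3
  refine le_antisymm (v_RR hv n) ?_
  by_contra hcon
  push Not at hcon
  have h4 : v (b : ℂ) * v (n : ℂ) < 1 := by
    rw [mul_comm]
    exact mul_lt_one_of_lt_of_le hcon (v_RR hv b)
  rw [h3] at h4
  exact lt_irrefl _ h4

lemma odd_tb (hL : IsLat L RR Ω) (hv : v al < 1) {n : RR} (hn : IsCoprime (2 : RR) n) (x : RR)
    (h0 : Ω * x / n ∉ L.lattice) : Tb v L (Ω * x / n) := by
  refine ⟨h0, n, odd_v hv hn, ?_⟩
  have := coe_ne (odd_ne hn)
  have e : (n : ℂ) * (Ω * x / n) = Ω * x := by field_simp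
  rw [e]
  exact hL.mem_mul x

lemma odd_two (hL : IsLat L RR Ω) {n : RR} (hn : IsCoprime (2 : RR) n) (x : RR)
    (h : 2 * (Ω * x / n) ∈ L.lattice) : Ω * x / n ∈ L.lattice := by
  refine cop_mem hL hn ?_ ?_
  · have h2 : ((2 : RR) : ℂ) = 2 := rfl
    rw [h2]
    exact h
  · have := coe_ne (odd_ne hn)
    have e : (n : ℂ) * (Ω * x / n) = Ω * x := by field_simp
    rw [e]
    exact hL.mem_mul x

lemma odd_add_tB (hL : IsLat L RR Ω) {n : RR} (hn : IsCoprime (2 : RR) n) (x : RR)
    (h0 : Ω * x / n ∉ L.lattice) : Ω * x / n + tB Ω ∉ L.lattice := by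
  intro h
  apply h0
  apply odd_two hL hn
  have h1 := add_mem h h
  have h2 := sub_mem h1 (two_tB hL)
  convert h2 using 1
  ring

lemma tb_tB (hL : IsLat L RR Ω) (hv : v al < 1) : Tb v L (tB Ω) := by
  refine ⟨tB_notMem hL, bR, by rw [bR_coe]; exact v_bl hv, ?_⟩
  rw [bR_coe]
  exact tB_mem hL

lemma v_half_al (hv : v al < 1) : v (al / 2) = 1 := by
  rw [map_div₀, ← v_two hv, div_self]
  exact (Valuation.ne_zero_iff v).2 two_ne_zero

lemma v_xB (h : LD L Ω) (hv : v al < 1) : v (Xx L (tB Ω)) = v 2 := by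
  have e : Xx L (tB Ω) = al * (al / 2) * (al / 2) := by
    unfold Xx
    rw [h.eb]
    linear_combination (-(al + 1) / 4) * al_sq
  rw [e, map_mul, map_mul, v_half_al hv, mul_one, mul_one, v_two hv]

/-- the second difference is congruent to one modulo two -/
lemma v_Dd (h : LD L Ω) (hv : v al < 1) {n : RR} (hn : IsCoprime (2 : RR) n) (x : RR)
    (h0 : Ω * x / n ∉ L.lattice) : v ((Dd L (Ω * x / n) (tB Ω) - 1) / 2) ≤ 1 := by
  have hL := h.lat
  have hz := odd_tb hL hv hn x h0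
  have h1 := odd_add_tB hL hn x h0
  have h2 : Ω * x / n - tB Ω ∉ L.lattice := by
    intro h3
    apply h1
    have := add_mem h3 (two_tB hL)
    convert this using 1
    ring
  have hd := hz.diff h hv (tb_tB hL hv) h1 h2
  have hi := hz.int h hv
  have ho := h.ode h0
  set z := Ω * x / n with hzd
  set X := Xx L z with hX
  set B := Xx L (tB Ω) with hB
  set Y := (℘'[L] z - X) / 2 with hY
  have e1 : Y * (Y + X) = X ^ 3 - X ^ 2 - 2 * X - 1 := by
    rw [hY]
    linear_combination ho / 4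
  have t2 := v_two_lt hv
  have hYi : v Y ≤ 1 := by
    by_contra hcon
    push Not at hcon
    have h3 : v (Y + X) = v Y := Valuation.map_add_eq_of_lt_left v (lt_of_le_of_lt hi hcon)
    have h4 := congrArg v e1
    rw [map_mul, h3] at h4
    have h5 : v (X ^ 3 - X ^ 2 - 2 * X - 1) ≤ 1 :=
      v_sub_le (v_sub_le (v_sub_le (v_pow_le hi 3) (v_pow_le hi 2)) (v_mul_le t2.le hi))
        (by rw [map_one])
    rw [← h4] at h5
    exact absurd h5 (not_le.2 (one_lt_mul_of_lt_of_le' hcon hcon.le))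
  have hne : X - B ≠ 0 := by
    intro h3
    rw [h3, map_zero] at hd
    exact zero_ne_one hd
  have e2 : (Dd L z (tB Ω) - 1) / 2 = (Y + B / 2) / (X - B) := by
    unfold Dd
    have e : ℘[L] z - ℘[L] (tB Ω) = X - B := by rw [hX, hB]; unfold Xx; ring
    rw [e, hY]
    field_simp
    ring
  rw [e2, map_div₀, hd, div_one]
  refine v_add_le hYi ?_
  rw [map_div₀, v_xB h hv, div_self]
  exact (Valuation.ne_zero_iff v).2 two_ne_zero

/-- one step -/
lemma Ev_step (h : LD L Ω) (hv : v al < 1) {n : RR} (hn : IsCoprime (2 : RR) n) (x : RR)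
    (h0 : Ω * x / n ∉ L.lattice) : v (Ev Ω (Ω * ((bR * x : RR) : ℂ) / n) - 1 / 2) ≤
      max (v 2 * v (Ev Ω (Ω * x / n) - 1 / 2)) 1 := by
  have hL := h.lat
  have h1 := Ev_bl hL (Tor.of hL (odd_ne hn) x) h0 (odd_add_tB hL hn x h0)
  have h2 := v_Dd h hv hn x h0
  have e : Ω * ((bR * x : RR) : ℂ) / n = bl * (Ω * x / n) := by
    push_cast
    rw [bR_coe]
    ring
  rw [e]
  set z := Ω * x / n
  have e2 : bl * (Ev Ω (bl * z) - 1 / 2) = 2 * (Ev Ω z - 1 / 2) +
      ((Dd L z (tB Ω) - 1) / 2 + (1 + al / 2)) := by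
    have : bl = 1 - al := rfl
    linear_combination h1 - (1 / 2 : ℂ) * this
  have h3 := congrArg v e2
  rw [map_mul, v_bl hv, one_mul] at h3
  rw [h3]
  refine (Valuation.map_add v _ _).trans (max_le_max ?_ ?_)
  · rw [map_mul]
  · refine v_add_le h2 (v_add_le (by rw [map_one]) (v_half_al hv).le)

lemma exists_per {n : RR} (hn : IsCoprime (2 : RR) n) : ∃ k : ℕ, 0 < k ∧ bR ^ k - 1 ∈ sp n := by
  have f1 := fin_quot (odd_ne hn)
  have hc : IsCoprime bR n := by
    have h1 : (2 : RR) = aR * bR := aR_mul_bR.symm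
    rw [h1] at hn
    exact hn.of_mul_left_right
  have hu : IsUnit (Ideal.Quotient.mk (sp n) bR) := by
    obtain ⟨a, b, hab⟩ := hc
    refine IsUnit.of_mul_eq_one (Ideal.Quotient.mk (sp n) a) ?_
    rw [← map_mul, ← map_one (Ideal.Quotient.mk (sp n)), Ideal.Quotient.mk_eq_mk_iff_sub_mem,
      Ideal.mem_span_singleton']
    exact ⟨-b, by linear_combination -hab⟩
  obtain ⟨u, hu⟩ := hu
  obtain ⟨k, hk, h⟩ := (isOfFinOrder_of_finite u).exists_pow_eq_one
  refine ⟨k, hk, ?_⟩
  rw [← Ideal.Quotient.mk_eq_mk_iff_sub_mem, map_pow, ← hu, map_one, ← Units.val_pow_eq_pow_val, h,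
    Units.val_one]

/-- **the values at the points of odd order are `1/2` up to integral elements** -/
theorem Ev_int (h : LD L Ω) (hv : v al < 1) {n : RR} (hn : IsCoprime (2 : RR) n) (x : RR)
    (h0 : Ω * x / n ∉ L.lattice) : v (Ev Ω (Ω * x / n) - 1 / 2) ≤ 1 := by
  have hL := h.lat
  have hn0 := odd_ne hn
  have hcb : IsCoprime bR n := by
    have h1 : (2 : RR) = aR * bR := aR_mul_bR.symm
    rw [h1] at hn
    exact hn.of_mul_left_right
  have hnm : ∀ k : ℕ, Ω * ((bR ^ k * x : RR) : ℂ) / n ∉ L.lattice := by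
    intro k h1
    apply h0
    rw [div_mem_iff hL hn0, Ideal.mem_span_singleton] at h1 ⊢
    exact (hcb.symm.pow_right).dvd_of_dvd_mul_left h1
  set M := v (Ev Ω (Ω * x / n) - 1 / 2) with hM
  have key : ∀ k : ℕ, v (Ev Ω (Ω * ((bR ^ k * x : RR) : ℂ) / n) - 1 / 2) ≤ 1 ∨
      v (Ev Ω (Ω * ((bR ^ k * x : RR) : ℂ) / n) - 1 / 2) ≤ v 2 ^ k * M := by
    intro k
    induction k with
    | zero =>
      right
      rw [pow_zero, pow_zero, one_mul, one_mul]
    | succ k ih =>
      have h1 := Ev_step h hv hn (bR ^ k * x) (hnm k)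
      have e : bR * (bR ^ k * x) = bR ^ (k + 1) * x := by ring
      rw [e] at h1
      rcases ih with h2 | h2
      · left
        refine h1.trans (max_le ?_ le_rfl)
        exact (mul_le_mul' (v_two_lt hv).le h2).trans (by rw [one_mul])
      · rcases le_max_iff.1 h1 with h3 | h3
        · right
          refine h3.trans ?_
          rw [pow_succ', mul_assoc]
          exact mul_le_mul_right h2 _
        · exact Or.inl h3
  obtain ⟨k, hk, hp⟩ := exists_per hn
  have e : Ev Ω (Ω * ((bR ^ k * x : RR) : ℂ) / n) = Ev Ω (Ω * x / n) := by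
    apply Ev_per hL
    have h1 : (bR ^ k - 1) * x ∈ sp n := Ideal.mul_mem_right _ _ hp
    have h2 := (div_mem_iff hL hn0 _).2 h1
    convert h2 using 1
    push_cast
    ring
  have h1 := key k
  rw [e] at h1
  rcases h1 with h1 | h1
  · exact h1
  · by_contra hcon
    push Not at hcon
    have h2 : v 2 ^ k < 1 := pow_lt_one₀ zero_le (v_two_lt hv) hk.ne'
    have h3 : v 2 ^ k * M < 1 * M := mul_lt_mul_of_pos_right h2 (lt_trans zero_lt_one hcon)
    rw [one_mul] at h3
    exact absurd h1 (not_le.2 h3)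

end Pool.Agent.L0h4.TW
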