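import Pool.Agent.L0h4.TW.Pr

/-!
# The 2-adic valuations of the weighted sums
-/

set_option autoImplicit false
set_option linter.unusedSectionVars false

open Filter
open scoped Topology PeriodPair

namespace Pool.Agent.L0h4.TW

open Pool.Agent.Y698 Pool.Agent.Y698.SG
open H667R3 Pool.Agent.W192.HK Pool.Agent.TH936.CM Pool.Agent.TH936.PU

variable {L : PeriodPair} {Ω : ℂ} {Γ : Type*} [LinearOrderedCommGroupWithZero Γ]
  {v : Valuation ℂ Γ}

lemma v_sum_le {κ : Type*} (s : Finset κ) (f : κ → ℂ) (h : ∀ i ∈ s, v (f i) ≤ 1) :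
    v (∑ i ∈ s, f i) ≤ 1 := by
  classical
  induction s using Finset.induction_on with
  | empty => simp
  | insert i s hi ih =>
    rw [Finset.sum_insert hi]
    exact v_add_le (h i (Finset.mem_insert_self _ _)) (ih fun j hj => h j
      (Finset.mem_insert_of_mem hj))

/-- the sum over the common squares -/
theorem Bv_hc {ι : Type} [DecidableEq ι] (h : LD L Ω) (hv : v al < 1) {S : Finset ι}
    {π : ι → RR} (hS : FX S π) (hne : S.Nonempty) :
    Rd v (2 * Bv Ω (∏ i ∈ S, π i) (fun m => ∏ i ∈ S, hc (π i) m)) (∏ i ∈ S, nt (π i)) := by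
  have hL := h.lat
  have t2 := v_two_lt hv
  have hn := prod_ne hS
  have ho := prod_odd hS
  obtain ⟨s, h1, h2⟩ := card_common hS
  set n := ∏ i ∈ S, π i with hnd
  have f1 := fin_quot hn
  let _ : Fintype (RR ⧸ sp n) := Fintype.ofFinite _
  set H : RR → ℂ := fun m => ∏ i ∈ S, hc (π i) m with hH
  have h3 : v (Bv Ω n H - (s : ℂ) / 2) ≤ 1 := by
    rw [finsum_eq_sum_of_fintype] at h2
    have e : Bv Ω n H - (s : ℂ) / 2 = ∑ x : RR ⧸ sp n, H x.out *
        (Ev Ω (Ω * x.out / (n : ℂ)) - 1 / 2) := by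
      rw [Bv_eq, ← h2, Finset.sum_div, ← Finset.sum_sub_distrib]
      refine Finset.sum_congr rfl fun x _ => ?_
      simp only [hH]
      ring
    rw [e]
    refine v_sum_le _ _ fun x _ => ?_
    rw [map_mul]
    by_cases hx : Ω * x.out / (n : ℂ) ∈ L.lattice
    · have h4 : H x.out = 0 := by
        obtain ⟨i, hi⟩ := hne
        refine Finset.prod_eq_zero hi ((hc_val (π i) x.out).2 ?_)
        rw [div_mem_iff hL hn] at hx
        exact (Ideal.span_singleton_le_span_singleton.2 (Finset.dvd_prod_of_mem _ hi)) hx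
      rw [h4, map_zero, zero_mul]
      exact zero_le
    · exact mul_le_one' (hcprod S π x.out).1 (Ev_int h hv ho x.out hx)
  have e2 : 2 * Bv Ω n H = 2 * (Bv Ω n H - (s : ℂ) / 2) + (s : ℂ) := by ring
  have h4 : Rd v (2 * (Bv Ω n H - (s : ℂ) / 2)) 0 := by
    rw [Rd.zero_iff]
    exact v_mul_lt' t2 h3
  have h5 : Rd v (s : ℂ) (s : ZMod 2) := by
    rcases Nat.even_or_odd' s with ⟨k, hk | hk⟩
    · have : (s : ZMod 2) = 0 := by rw [ZMod.natCast_eq_zero_iff]; exact ⟨k, hk⟩
      rw [this, Rd.zero_iff, hk]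
      push_cast
      exact v_mul_lt' t2 (v_nat k)
    · have : (s : ZMod 2) = 1 := by
        have h8 : ((s : ℕ) : ZMod 2) = ((1 : ℕ) : ZMod 2) := by
          rw [ZMod.natCast_eq_natCast_iff]
          show s % 2 = 1 % 2
          omega
        rw [h8, Nat.cast_one]
      rw [this, Rd.one_iff, hk]
      push_cast
      rw [add_sub_cancel_right]
      exact v_mul_lt' t2 (v_nat k)
  rw [e2, ← h1, ← zero_add (s : ZMod 2)]
  exact Rd.add t2 h4 h5

/-- the Euler factor -/
lemma Rd_euler (hv : v al < 1) {ϖ : RR} (h4 : N1 ϖ) {κ : ℂ}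
    (hκ : κ = 1 ∨ κ = -1) : Rd v (((ϖ : ℂ) - κ) / 2) (lg κ) := by
  obtain ⟨u, rfl⟩ := h4
  have t2 := v_two_lt hv
  have hu := v_RR hv u
  have e : ((((1 + aR ^ 2 * u : RR) : ℂ) - κ) / 2) = al * (al / 2) * u + (1 - κ) / 2 := by
    push_cast
    rw [aR_coe]
    ring
  have h2 : v (al * (al / 2) * (u : ℂ)) < 1 := by
    rw [map_mul, map_mul, v_half_al hv, mul_one]
    exact mul_lt_one_of_lt_of_le hv hu
  rw [e, ← zero_add (lg κ)]
  refine Rd.add t2 (Rd.zero_iff.2 h2) ?_
  rcases hκ with rfl | rfl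
  · rw [lg_one, Rd.zero_iff, sub_self, zero_div, map_zero]
    exact zero_lt_one
  · rw [lg_neg_one, Rd.one_iff]
    have e : ((1 : ℂ) - -1) / 2 - 1 = 0 := by norm_num
    rw [e, map_zero]
    exact zero_lt_one

/-- the matrix -/
noncomputable def mm {ι : Type} (π : ι → RR) (i j : ι) : ZMod 2 := lg (sy (π j) (π i))

/-- the reciprocity law -/
def RecX {ι : Type} (S : Finset ι) (π : ι → RR) : Prop :=
  ∀ i ∈ S, ∀ j ∈ S, i ≠ j → mm π i j + mm π j i = nt (π i) * nt (π j)

/-- the parity of the product of the symbols -/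
lemma sy_prod_neg {ι : Type} {S : Finset ι} {π : ι → RR} (hS : FX S π)
    (hn : ∑ k ∈ S, nt (π k) = 0) (x : RR) :
    ∏ i ∈ S, sy (π i) (-x) = ∏ i ∈ S, sy (π i) x := by
  have h1 : ∏ i ∈ S, sy (π i) (-x) = (∏ i ∈ S, sy (π i) (-1)) * ∏ i ∈ S, sy (π i) x := by
    rw [← Finset.prod_mul_distrib]
    refine Finset.prod_congr rfl fun i hi => ?_
    rw [← sy_mul' (hS.pd i hi).pr, neg_one_mul]
  have h2 := sgn_prod (s := S) (f := fun i => sy (π i) (-1)) fun i hi =>
    sy_neg_one (hS.pd i hi).pr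
  have h3 : lg (∏ i ∈ S, sy (π i) (-1)) = 0 := by
    rw [h2.2]
    exact hn
  have h4 : ∏ i ∈ S, sy (π i) (-1) = 1 := by
    rcases h2.1 with h | h
    · exact h
    · rw [h, lg_neg_one] at h3
      exact absurd h3 one_ne_zero
  rw [h1, h4, one_mul]

/-- **the induction** -/
theorem indX {ι : Type} [DecidableEq ι] (h : LD L Ω) (hv : v al < 1) {S0 : Finset ι}
    {π : ι → RR} (hS0 : FX S0 π) (hrec : RecX S0 π) (S : Finset ι) (hSS : S ⊆ S0)
    (hne : S.Nonempty) :
    Rd v (2 * Bv Ω (∏ i ∈ S, π i) (fun m => ∏ i ∈ S, sy (π i) m) / 2 ^ S.card)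
      (gd (fun i => nt (π i)) (mm π) S) := by
  have hL := h.lat
  have t2 := v_two_lt hv
  set n : ι → ZMod 2 := fun i => nt (π i) with hnd
  set a : Finset ι → ℂ := fun A => Bv Ω (∏ i ∈ A, π i) (fun m => ∏ i ∈ A, sy (π i) m) with had
  have ha0 : a ∅ = 0 := by
    simp only [had, Finset.prod_empty]
    exact Bv_even hL one_ne_zero (fun _ _ _ => rfl) (fun _ => rfl)
  have key : ∀ S : Finset ι, S ⊆ S0 → S.Nonempty → Rd v (2 * a S / 2 ^ S.card) (gd n (mm π) S) := by
    intro S
    induction S using Finset.strongInduction with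
    | H S ih =>
      intro hSS hne
      have hS := hS0.mono hSS
      by_cases hn : ∑ k ∈ S, n k = 0
      · -- even sets
        have h1 : a S = 0 := Bv_even hL (prod_ne hS) (Pe.prod fun p _ => sy_per (π p))
          (fun x => sy_prod_neg hS hn x)
        have h2 : gd n (mm π) S = 0 := gd_even (fun i hi j hj hij => hrec i (hSS hi) j (hSS hj) hij)
          hn hne
        rw [h1, h2, Rd.zero_iff, mul_zero, zero_div, map_zero]
        exact zero_lt_one
      -- odd sets
      have h2 := Bv_subsets hL S hS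
      rw [← Finset.add_sum_erase _ _ (Finset.mem_powerset_self S), Finset.sdiff_self,
        Finset.prod_empty, one_mul] at h2
      have h3 := Bv_hc h hv hS hne
      set Y := Bv Ω (∏ i ∈ S, π i) (fun m => ∏ i ∈ S, hc (π i) m) with hY
      have h20 : (2 : ℂ) ^ S.card ≠ 0 := pow_ne_zero _ two_ne_zero
      set t : Finset ι → ℂ := fun A =>
        (∏ i ∈ S \ A, (((π i : ℂ) - ∏ j ∈ A, sy (π j) (π i)) / 2)) * (2 * a A / 2 ^ A.card) with ht
      have ht1 : ∀ A ∈ S.powerset.erase S, (∏ i ∈ S \ A, ((π i : ℂ) -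
          ∏ j ∈ A, sy (π j) (π i))) *
          Bv Ω (∏ i ∈ A, π i) (fun m => ∏ i ∈ A, sy (π i) m) =
          (2 ^ S.card / 2) * t A := by
        intro A hA
        rw [Finset.mem_erase, Finset.mem_powerset] at hA
        have hcs : S.card = (S \ A).card + A.card := (Finset.card_sdiff_add_card_eq_card hA.2).symm
        rw [ht]
        beta_reduce
        rw [Finset.prod_div_distrib, Finset.prod_const, hcs, pow_add]
        simp only [had]
        field_simp
      rw [Finset.sum_congr rfl ht1, ← Finset.mul_sum] at h2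
      have h4 : 2 * a S / 2 ^ S.card = 2 * Y + -∑ A ∈ S.powerset.erase S, t A := by
        have : a S = 2 ^ S.card * Y - (2 ^ S.card / 2) * ∑ A ∈ S.powerset.erase S, t A := by
          linear_combination h2
        rw [this]
        field_simp
        ring
      have h5 : gd n (mm π) S = ∏ i ∈ S, n i + ∑ A ∈ S.powerset.erase S,
          (∏ i ∈ S \ A, ∑ j ∈ A, mm π i j) * gd n (mm π) A := by
        have h6 := rec1 n (mm π) S
        rw [← Finset.add_sum_erase _ _ (Finset.mem_powerset_self S), Finset.sdiff_self,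
          Finset.prod_empty, mul_one] at h6
        rw [← h6, Finset.sum_congr rfl (fun A _ => mul_comm (gd n (mm π) A) _)]
        linear_combination -(two_self (∑ A ∈ S.powerset.erase S,
          (∏ i ∈ S \ A, ∑ j ∈ A, mm π i j) * gd n (mm π) A))
      rw [h4, h5]
      refine Rd.add t2 h3 (Rd.neg t2 (Rd.sum t2 ?_))
      intro A hA
      rw [Finset.mem_erase, Finset.mem_powerset] at hA
      rcases A.eq_empty_or_nonempty with hAe | hAne
      · -- the empty set
        subst hAe
        obtain ⟨i, hi⟩ := hne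
        have h6 : ∏ i ∈ S \ ∅, ∑ j ∈ (∅ : Finset ι), mm π i j = 0 :=
          Finset.prod_eq_zero (i := i) (by rwa [Finset.sdiff_empty]) Finset.sum_empty
        rw [h6, zero_mul, Rd.zero_iff]
        simp only [ht, ha0, mul_zero, zero_div, map_zero]
        exact zero_lt_one
      have hss : A ⊂ S := hA.2.ssubset_of_ne hA.1
      refine Rd.mul (Rd.prod fun i hi => ?_) (ih A hss (hA.2.trans hSS) hAne)
      rw [Finset.mem_sdiff] at hi
      have hpi := hS.pd i hi.1
      have h7 := sgn_prod (s := A) (f := fun j => sy (π j) (π i)) fun j hj => sy_sgn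
        (hS.ne i hi.1 j (hA.2 hj) fun h => hi.2 (h ▸ hj))
      have h8 : ∑ j ∈ A, mm π i j = lg (∏ j ∈ A, sy (π j) (π i)) := h7.2.symm
      rw [h8]
      exact Rd_euler hv hpi.n1 h7.1
  exact key S hSS hne

end Pool.Agent.L0h4.TW
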