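import Pool.Agent.L0h4.TW.Rcp
import Pool.Agent.L0h4.TW.Ind

/-!
# The facts about the family of the primes
-/

set_option autoImplicit false
set_option linter.unusedSectionVars false

open scoped NumberTheorySymbols

namespace Pool.Agent.L0h4.TW

open Pool.Agent.Y698 Pool.Agent.Y698.SG
open H667R3 Pool.Agent.W192.HK Pool.Agent.TH936.CM Pool.Agent.TH936.PU
open Pool.Agent.Y279.SG (sy_eq sy_cj dec nR_int cXY_cj unit_of_nR nR_dvd red qch_eq cj_mem
  mk_int_of)

lemma nR_cj (x : RR) : nR (cj x) = nR x := by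
  unfold nR
  rw [(cXY_cj x).1, (cXY_cj x).2]
  ring

/-! ### inert primes -/

lemma InP.dvd {q : ℕ} (h : InP q) (x : RR) : x ∈ sp (q : RR) ↔ (q : ℤ) ∣ nR x := by
  rw [mem_inert_iff h.pr h.ns, ZMod.intCast_zmod_eq_zero_iff_dvd]

lemma InP.ne7 {q : ℕ} (h : InP q) : q ≠ 7 := by
  rintro rfl
  exact h.ns ⟨0, by decide⟩

lemma InP.cop {q : ℕ} (h : InP q) : IsCoprime fR (q : RR) := cop_inert h.pr h.ns

/-- every integer is a square modulo an inert prime -/
lemma int_sqX {q : ℕ} (h : InP q) (n : ℤ) :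
    IsSquare (Ideal.Quotient.mk (sp (q : RR)) (n : RR)) := by
  have _ : Fact q.Prime := ⟨h.pr⟩
  by_cases h1 : IsSquare ((n : ℤ) : ZMod q)
  · obtain ⟨s, hs⟩ := h1
    obtain ⟨s, rfl⟩ := ZMod.intCast_surjective s
    refine ⟨Ideal.Quotient.mk _ (s : RR), ?_⟩
    rw [← map_mul]
    have := mk_int_of (q := q) (a := n) (b := s * s) (by push_cast; exact hs)
    push_cast at this
    exact this
  · have hn0 : ((n : ℤ) : ZMod q) ≠ 0 := fun h0 => h1 (by rw [h0]; exact ⟨0, by ring⟩)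
    have h70 : (-7 : ZMod q) ≠ 0 := fun h0 => h.ns (by rw [h0]; exact ⟨0, by ring⟩)
    have hq2 : ringChar (ZMod q) ≠ 2 := by
      rw [ZMod.ringChar_zmod_n]
      have := h.odd
      omega
    have e1 : quadraticChar (ZMod q) (n : ZMod q) = -1 :=
      (quadraticChar_neg_one_iff_not_isSquare).2 h1
    have e2 : quadraticChar (ZMod q) (-7 : ZMod q) = -1 :=
      (quadraticChar_neg_one_iff_not_isSquare).2 h.ns
    have e3 : IsSquare ((-7 : ZMod q) * (n : ZMod q)) := by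
      rw [← quadraticChar_one_iff_isSquare (mul_ne_zero h70 hn0), map_mul, e1, e2]
      norm_num
    obtain ⟨s, hs⟩ := e3
    obtain ⟨s, rfl⟩ := ZMod.intCast_surjective s
    obtain ⟨u, v, huv⟩ := h.cop
    have e4 := mk_int_of (q := q) (a := -7 * n) (b := s * s) (by push_cast; exact hs)
    push_cast at e4
    have e5 : Ideal.Quotient.mk (sp (q : RR)) (u * fR) = 1 := by
      rw [← map_one (Ideal.Quotient.mk (sp (q : RR))), Ideal.Quotient.eq,
        Ideal.mem_span_singleton']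
      exact ⟨-v, by linear_combination -huv⟩
    refine ⟨Ideal.Quotient.mk _ ((s : RR) * u), ?_⟩
    have e6 : (-7 : RR) = fR ^ 2 := fR_sq.symm
    rw [e6] at e4
    simp only [map_mul, map_pow] at e4 e5 ⊢
    linear_combination (Ideal.Quotient.mk (sp (q : RR)) u) ^ 2 * e4 -
      Ideal.Quotient.mk (sp (q : RR)) (n : RR) *
        (Ideal.Quotient.mk (sp (q : RR)) u * Ideal.Quotient.mk (sp (q : RR)) fR + 1) * e5

theorem sy_inertX {q : ℕ} (h : InP q) (x : RR) : sy (q : RR) x = qch q (nR x) := by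
  classical
  have _ : Fact q.Prime := ⟨h.pr⟩
  unfold sy
  by_cases h0 : x ∈ sp (q : RR)
  · rw [if_pos h0]
    rcases qch_val h.pr (nR x) with h1 | h1
    · exact h1.2.symm
    · exact absurd ((h.dvd x).1 h0) h1.1
  have hnd : ¬ (q : ℤ) ∣ nR x := fun h1 => h0 ((h.dvd x).2 h1)
  have hn0 : ((nR x : ℤ) : ZMod q) ≠ 0 := by
    rwa [Ne, ZMod.intCast_zmod_eq_zero_iff_dvd]
  have key : IsSquare (Ideal.Quotient.mk (sp (q : RR)) x) ↔ IsSquare ((nR x : ℤ) : ZMod q) := by
    constructor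
    · rintro ⟨y, hy⟩
      obtain ⟨y, rfl⟩ := Ideal.Quotient.mk_surjective y
      refine ⟨((nR y : ℤ) : ZMod q), ?_⟩
      rw [← map_mul, Ideal.Quotient.eq, Ideal.mem_span_singleton'] at hy
      obtain ⟨c, hc⟩ := hy
      have h1 : x = y * y + (q : RR) * c := by linear_combination -hc
      have h2 : cX x = cX (y * y) + q * cX c ∧ cY x = cY (y * y) + q * cY c := by
        apply cXY_of
        rw [h1]
        push_cast
        have e1 := co (y * y)
        push_cast at e1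
        rw [e1, co c]
        ring
      have h3 : ((nR x : ℤ) : ZMod q) = ((nR (y * y) : ℤ) : ZMod q) := by
        unfold nR
        rw [h2.1, h2.2]
        push_cast
        simp
      rw [h3, nR_mul]
      push_cast
      rfl
    · rintro ⟨s, hs⟩
      obtain ⟨m, rfl⟩ := ZMod.intCast_surjective s
      have e1 := mk_int_of (q := q) (a := nR x) (b := m * m) (by push_cast; exact hs)
      rw [← mul_cj x] at e1
      push_cast at e1
      have e2 : cj x = ((2 * cX x + cY x : ℤ) : RR) - x := by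
        apply RR_ext
        · rw [(cXY_cj x).1, sub_eq_add_neg, (cXY_add _ _).1, (cXY_int _).1, (cXY_neg x).1]
          ring
        · rw [(cXY_cj x).2, sub_eq_add_neg, (cXY_add _ _).2, (cXY_int _).2, (cXY_neg x).2]
          ring
      obtain ⟨t, ht⟩ : ∃ t : ℤ, t = 2 * cX x + cY x := ⟨_, rfl⟩
      rw [e2, ← ht] at e1
      by_cases h5 : (((t + 2 * m : ℤ)) : ZMod q) = 0
      · -- then `x = -m`
        have e3 : Ideal.Quotient.mk (sp (q : RR)) ((t + 2 * m : ℤ) : RR) = 0 := by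
          have := mk_int_of (q := q) (a := t + 2 * m) (b := 0) (by rw [h5]; simp)
          rw [this]
          simp
        have e4 : Ideal.Quotient.mk (sp (q : RR)) ((x + (m : RR)) * (x + (m : RR))) = 0 := by
          push_cast at e3
          simp only [map_mul, map_add, map_sub, map_ofNat] at e1 e3 ⊢
          linear_combination -e1 + Ideal.Quotient.mk (sp (q : RR)) x * e3
        rw [Ideal.Quotient.eq_zero_iff_mem] at e4
        have hpr : (sp (q : RR)).IsPrime := (maximal_sp (irr_inert h.pr h.ns)).isPrime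
        have e5 : x + (m : RR) ∈ sp (q : RR) := by
          rcases hpr.mem_or_mem e4 with h6 | h6 <;> exact h6
        have e6 : Ideal.Quotient.mk (sp (q : RR)) x =
            Ideal.Quotient.mk (sp (q : RR)) ((-m : ℤ) : RR) := by
          rw [Ideal.Quotient.eq]
          push_cast
          rw [sub_neg_eq_add]
          exact e5
        rw [e6]
        exact int_sqX h (-m)
      · obtain ⟨w, hw⟩ := ZMod.intCast_surjective (((t + 2 * m : ℤ) : ZMod q)⁻¹)
        have e3 : Ideal.Quotient.mk (sp (q : RR)) (((t + 2 * m) * w : ℤ) : RR) = 1 := by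
          have := mk_int_of (q := q) (a := (t + 2 * m) * w) (b := 1)
            (by rw [Int.cast_mul, hw, mul_inv_cancel₀ h5]; simp)
          rw [this]
          simp
        obtain ⟨r, hr⟩ := int_sqX h w
        refine ⟨Ideal.Quotient.mk _ (x + (m : RR)) * r, ?_⟩
        push_cast at e3
        simp only [map_mul, map_add, map_sub, map_ofNat] at e1 e3 hr ⊢
        generalize Ideal.Quotient.mk (sp (q : RR)) x = X at *
        generalize Ideal.Quotient.mk (sp (q : RR)) (m : RR) = M at *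
        generalize Ideal.Quotient.mk (sp (q : RR)) (t : RR) = T at *
        generalize Ideal.Quotient.mk (sp (q : RR)) (w : RR) = W at *
        linear_combination (X + M) ^ 2 * hr - X * e3 + W * e1
  rw [if_neg h0, qch_eq]
  by_cases h1 : IsSquare ((nR x : ℤ) : ZMod q)
  · rw [if_pos (key.2 h1), (quadraticChar_one_iff_isSquare hn0).2 h1]
    norm_num
  · rw [if_neg (fun h2 => h1 (key.1 h2)), (quadraticChar_neg_one_iff_not_isSquare).2 h1]
    norm_num

/-! ### signs -/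

lemma sg_unit (p : ℕ) : IsUnit (sg p) := by
  unfold sg
  split_ifs
  · exact isUnit_one
  · exact isUnit_one.neg

lemma sg_sq (p : ℕ) : sg p * sg p = 1 := by
  unfold sg
  split_ifs <;> norm_num

lemma sg_sgn (p : ℕ) : sg p = 1 ∨ sg p = -1 := by
  unfold sg
  split_ifs
  · exact Or.inl rfl
  · exact Or.inr rfl

/-- the integer sign -/
def sgz (p : ℕ) : ℤ := if p % 4 = 1 then 1 else -1

lemma sg_coe (p : ℕ) : sg p = ((sgz p : ℤ) : RR) := by
  unfold sg sgz
  split_ifs <;> push_cast <;> rfl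

lemma sp_sg (p : ℕ) (x : RR) : sp (sg p * x) = sp x := by
  rcases sg_sgn p with h | h <;> rw [h]
  · rw [one_mul]
  · rw [neg_one_mul]
    exact Ideal.span_singleton_neg x

open Classical in
/-- the residue symbol modulo an ideal -/
noncomputable def syI (I : Ideal RR) (x : RR) : ℂ :=
  if x ∈ I then 0 else if IsSquare (Ideal.Quotient.mk I x) then 1 else -1

lemma sy_I (x z : RR) : sy x z = syI (sp x) z := rfl

lemma sy_congr {x y : RR} (h : sp x = sp y) (z : RR) : sy x z = sy y z := by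
  rw [sy_I, sy_I, h]

lemma nR_sg (p : ℕ) (x : RR) : nR (sg p * x) = nR x := by
  rcases sg_sgn p with h | h <;> rw [h]
  · rw [one_mul]
  · rw [neg_one_mul, nR_neg]

lemma cXY_sg (p : ℕ) (x : RR) : cX (sg p * x) = sgz p * cX x ∧ cY (sg p * x) = sgz p * cY x := by
  rw [sg_coe]
  have := cXY_mul ((sgz p : ℤ) : RR) x
  rw [(cXY_int _).1, (cXY_int _).2] at this
  constructor
  · rw [this.1]; ring
  · rw [this.2]; ring

lemma odd_of_nR {x : RR} (h : nR x % 2 = 1) : IsCoprime (2 : RR) x := by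
  obtain ⟨k, hk⟩ : ∃ k : ℤ, nR x = 1 + 2 * k := ⟨(nR x - 1) / 2, by omega⟩
  have h1 := mul_cj x
  rw [hk] at h1
  push_cast at h1
  exact ⟨-(k : RR), cj x, by linear_combination h1⟩

/-! ### the two kinds of primes -/

/-- normalised primes of degree one -/
structure D1 (x : RR) (p : ℕ) : Prop where
  pr : p.Prime
  odd : p % 2 = 1
  nR : nR x = p
  n1 : N1 x

/-- normalised primes of degree two -/
structure D2 (x : RR) (q : ℕ) : Prop where
  inp : InP q
  eq : x = sg q * (q : RR)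

lemma D1.px {x : RR} {p : ℕ} (h : D1 x p) : PX x :=
  ⟨prime_of_nR h.pr h.nR, h.n1, odd_of_nR (by rw [h.nR]; have := h.odd; omega),
    sy_mul' (prime_of_nR h.pr h.nR)⟩

lemma D2.sp {x : RR} {q : ℕ} (h : D2 x q) : sp x = sp (q : RR) := by rw [h.eq, sp_sg]

lemma D2.nR {x : RR} {q : ℕ} (h : D2 x q) : nR x = (q : ℤ) ^ 2 := by
  rw [h.eq, nR_sg, nR_nat]

lemma sq_mod {q : ℕ} (h : q % 2 = 1) : ((q : ℤ) ^ 2) % 4 = 1 := by
  obtain ⟨k, hk⟩ : ∃ k : ℤ, (q : ℤ) = 1 + 2 * k := ⟨((q : ℤ) - 1) / 2, by omega⟩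
  rw [hk]
  have : (1 + 2 * k) ^ 2 = 1 + 4 * (k + k ^ 2) := by ring
  omega

lemma D2.pr {x : RR} {q : ℕ} (h : D2 x q) : Prime x := by
  have h1 := (irr_inert h.inp.pr h.inp.ns).prime
  rw [h.eq]
  rcases sg_sgn q with h2 | h2 <;> rw [h2]
  · rwa [one_mul]
  · rw [neg_one_mul]
    exact h1.neg

lemma N1_int {m : ℤ} (h : m % 4 = 1) : N1 ((m : ℤ) : RR) := by
  have h1 : nR ((m : ℤ) : RR) % 2 = 1 := by
    rw [nR_int]
    obtain ⟨k, hk⟩ : ∃ k : ℤ, m = 1 + 2 * k := ⟨(m - 1) / 2, by omega⟩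
    rw [hk]
    have : (1 + 2 * k) ^ 2 = 1 + 2 * (2 * k + 2 * k ^ 2) := by ring
    omega
  rw [N1_iff h1, (cXY_int m).1]
  exact h

lemma sgz_mod {q : ℕ} (h : q % 2 = 1) : (sgz q * q) % 4 = 1 := by
  unfold sgz
  split_ifs <;> omega

lemma D2.px {x : RR} {q : ℕ} (h : D2 x q) : PX x := by
  refine ⟨h.pr, ?_, odd_of_nR ?_, sy_mul' h.pr⟩
  · rw [h.eq, sg_coe]
    have := N1_int (sgz_mod h.inp.odd)
    push_cast at this
    exact this
  · rw [h.nR]
    have := sq_mod h.inp.odd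
    omega

/-- the conjugate prime -/
lemma D1.cj {x : RR} {p : ℕ} (h : D1 x p) : D1 (sg p * cj x) p := by
  have h2 : Y698.nR x % 2 = 1 := by rw [h.nR]; have := h.odd; omega
  have h3 := (N1_iff h2).1 h.n1
  have h4 := nR_mod4 h2
  rw [h.nR] at h4
  have h5 : Y698.nR (sg p * Y698.cj x) = p := by rw [nR_sg, nR_cj, h.nR]
  refine ⟨h.pr, h.odd, h5, ?_⟩
  rw [N1_iff (by rw [h5]; have := h.odd; omega), (cXY_sg _ _).1, (cXY_cj x).1]
  have h6 := h.odd
  unfold sgz
  split_ifs <;> omega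

/-- `√-7` -/
lemma D1_seven : D1 (-fR) 7 := by
  have h1 : nR (-fR) = 7 := by rw [nR_neg, nR_fR]
  refine ⟨by norm_num, by norm_num, by rw [h1]; rfl, ?_⟩
  rw [N1_iff (by rw [h1]; norm_num), (cXY_neg _).1, cXY_fR.1]
  norm_num

/-- the two primes above `p` are different -/
lemma ne_cj {p : ℕ} (hpp : p.Prime) (hp7 : p ≠ 7) {ϖ : RR} (hN : nR ϖ = p) : ϖ ∉ sp (cj ϖ) := by
  intro h
  have h1 : ∃ c : RR, ϖ = c * cj ϖ := by
    rw [Ideal.mem_span_singleton'] at h
    obtain ⟨c, hc⟩ := h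
    exact ⟨c, hc.symm⟩
  obtain ⟨c, hc⟩ := h1
  have hNc : nR (cj ϖ) = p := by rw [nR_cj, hN]
  have h2 : nR c = 1 := by
    have h3 := congrArg nR hc
    rw [nR_mul, hNc, hN] at h3
    have h5 : (p : ℤ) ≠ 0 := by exact_mod_cast hpp.ne_zero
    apply mul_right_cancel₀ h5
    linarith
  have h3 := isUnit_iff.1 (unit_of_nR h2)
  have h6 : (p : ℤ) = cX ϖ ^ 2 + cX ϖ * cY ϖ + 2 * cY ϖ ^ 2 := by
    rw [← hN]; rfl
  rcases h3 with h3 | h3
  · rw [h3, one_mul] at hc
    have h5 := congrArg cY hc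
    rw [(cXY_cj ϖ).2] at h5
    have hY : cY ϖ = 0 := by omega
    rw [hY] at h6
    have h7 : (p : ℤ) = cX ϖ * cX ϖ := by linear_combination h6
    have h8 : p = (cX ϖ).natAbs * (cX ϖ).natAbs := by
      rw [← Int.natAbs_mul, ← h7]
      simp
    exact hpp.prime.irreducible.not_isSquare ⟨_, h8⟩
  · rw [h3, neg_one_mul] at hc
    have h5 := congrArg cX hc
    rw [(cXY_neg _).1, (cXY_cj ϖ).1] at h5
    have hY : cY ϖ = -2 * cX ϖ := by omega
    rw [hY] at h6
    have h7 : (7 : ℤ) ∣ p := ⟨cX ϖ ^ 2, by linear_combination h6⟩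
    have h8 : 7 ∣ p := by exact_mod_cast h7
    exact hp7 ((Nat.prime_dvd_prime_iff_eq (by norm_num) hpp).1 h8).symm

/-- the product of the symbols modulo the two primes above `p` -/
lemma sy_norm {p : ℕ} (hpp : p.Prime) {ϖ : RR} (hN : nR ϖ = p) (x : RR) :
    sy ϖ x * sy (cj ϖ) x = qch p (nR x) := by
  have h1 : sy (cj ϖ) x = sy ϖ (cj x) := by
    rw [← sy_cj ϖ (cj x), cj_cj]
  rw [h1, ← sy_mul' (prime_of_nR hpp hN), mul_cj, sy_int hpp hN]

/-! ### reciprocity -/

lemma nt_D1 {x : RR} {p : ℕ} (h : D1 x p) : nt x = if p % 4 = 3 then 1 else 0 := by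
  rw [nt_norm h.px.pr, h.nR]
  have : ((p : ℤ) % 4 = 3) ↔ (p % 4 = 3) := by omega
  simp only [this]

lemma nt_D2 {x : RR} {q : ℕ} (h : D2 x q) : nt x = 0 := by
  rw [nt_norm h.pr, h.nR, sq_mod h.inp.odd]
  rfl

lemma lg_pm {z w : ℂ} (hz : z = 1 ∨ z = -1) (hw : w = 1 ∨ w = -1) : lg z + lg w = lg (z * w) :=
  (lg_mul hz hw).symm

/-- two primes of degree one -/
lemma rec11 {x y : RR} {p l : ℕ} (hx : D1 x p) (hy : D1 y l) (hxy : x ∉ sp y) (hyx : y ∉ sp x) :
    lg (sy y x) + lg (sy x y) = nt x * nt y := by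
  rw [lg_pm (sy_sgn hxy) (sy_sgn hyx), mul_comm (sy y x),
    rcp11 hx.pr hy.pr hx.odd hy.odd hx.nR hy.nR hx.n1 hy.n1 hxy hyx, nt_D1 hx, nt_D1 hy]
  by_cases a1 : p % 4 = 3 <;> by_cases a2 : l % 4 = 3 <;> simp [a1, a2, lg_one, lg_neg_one]

/-- primes of degree one and two -/
lemma rec12 {x y : RR} {p q : ℕ} (hx : D1 x p) (hy : D2 y q) (hxy : x ∉ sp y) (hyx : y ∉ sp x) :
    lg (sy y x) + lg (sy x y) = 0 := by
  have _ : Fact p.Prime := ⟨hx.pr⟩
  have _ : Fact q.Prime := ⟨hy.inp.pr⟩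
  have h1 : sy y x = qch q (p : ℤ) := by
    rw [sy_congr hy.sp, sy_inertX hy.inp, hx.nR]
  have h2 : sy x y = qch p (sgz q * q) := by
    rw [hy.eq, sg_coe]
    have := sy_int hx.pr hx.nR (sgz q * q)
    push_cast at this
    exact this
  rw [lg_pm (sy_sgn hxy) (sy_sgn hyx)]
  have h3 : qch q (p : ℤ) * qch p (sgz q * q) = 1 := by
    have hpo : Odd p := Nat.odd_iff.2 hx.odd
    have hqo : Odd q := Nat.odd_iff.2 hy.inp.odd
    have h5 := hx.odd
    have h6 := hy.inp.odd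
    have h4 : qch q (p : ℤ) ≠ 0 := by
      rw [← h1]
      rcases sy_sgn hxy with h | h <;> rw [h] <;> norm_num
    have h7 : qch q (p : ℤ) * qch q (p : ℤ) = 1 := by
      rw [← h1]
      rcases sy_sgn hxy with h | h <;> rw [h] <;> norm_num
    have h8 : qch p (sgz q * q) = qch q (p : ℤ) := by
      unfold sgz qch
      congr 1
      by_cases a1 : q % 4 = 1
      · rw [if_pos a1, one_mul]
        exact jacobiSym.quadratic_reciprocity_one_mod_four a1 hpo
      · rw [if_neg a1]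
        have a3 : q % 4 = 3 := by omega
        rw [jacobiSym.mul_left, jacobiSym.at_neg_one hpo, ZMod.χ₄_nat_eq_if_mod_four,
          if_neg (by omega)]
        by_cases a2 : p % 4 = 1
        · rw [if_pos a2, one_mul]
          exact (jacobiSym.quadratic_reciprocity_one_mod_four a2 hqo).symm
        · rw [if_neg a2, jacobiSym.quadratic_reciprocity_three_mod_four a3 (by omega)]
          ring
    rw [h8, h7]
  rw [h1, h2, h3, lg_one]

/-- two primes of degree two -/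
lemma rec22 {x y : RR} {p q : ℕ} (hx : D2 x p) (hy : D2 y q) (hxy : x ∉ sp y) : sy y x = 1 := by
  rcases qch_val hy.inp.pr (p : ℤ) with h1 | h1
  · exfalso
    apply hxy
    rw [hy.sp, hy.inp.dvd, hx.nR]
    exact dvd_pow h1.1 two_ne_zero
  · rw [sy_congr hy.sp, sy_inertX hy.inp, hx.nR, pow_two, qch_mul]
    rcases h1.2 with h | h <;> rw [h] <;> norm_num

/-! ### the family -/

/-- the data: the inert primes `Q`, the split primes `P`, the choice `ϖ` -/
structure Dt (Q P : Finset ℕ) (ϖ : ℕ → RR) : Prop where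
  q : ∀ q ∈ Q, InP q
  p : ∀ p ∈ P, SpP p
  cho : Cho ϖ P

/-- the family with the additional prime `-√-7` at the index `(7, false)` -/
noncomputable def pf7 (Q : Finset ℕ) (ϖ : ℕ → RR) (i : ℕ × Bool) : RR :=
  if i.1 = 7 then -fR else pfx Q ϖ i

section
variable {Q P : Finset ℕ} {ϖ : ℕ → RR}

lemma mem_ix {i : ℕ × Bool} : i ∈ ix Q P ↔
    (i.1 ∈ Q ∧ i.2 = false) ∨ (i.1 ∈ P ∧ i.2 = false) ∨ (i.1 ∈ P ∧ i.2 = true) := by
  unfold ix
  rw [Finset.mem_union, Finset.mem_product, Finset.mem_product, Finset.mem_union,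
    Finset.mem_singleton, Finset.mem_singleton]
  tauto

lemma Dt.disj (h : Dt Q P ϖ) {q : ℕ} (hq : q ∈ Q) : q ∉ P := fun hp => (h.q q hq).ns (h.p q hp).sq

lemma Dt.dis (h : Dt Q P ϖ) : Disjoint Q P := by
  rw [Finset.disjoint_left]
  exact fun q hq hp => h.disj hq hp

lemma Dt.d1 (h : Dt Q P ϖ) {p : ℕ} (hp : p ∈ P) : D1 (ϖ p) p :=
  ⟨(h.p p hp).pr, (h.p p hp).odd, (h.cho p hp).1, (h.cho p hp).2⟩

lemma Dt.ne7 (h : Dt Q P ϖ) {i : ℕ × Bool} (hi : i ∈ ix Q P) : i.1 ≠ 7 := by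
  rw [mem_ix] at hi
  rcases hi with hi | hi | hi
  · exact (h.q _ hi.1).ne7
  · exact (h.p _ hi.1).n7
  · exact (h.p _ hi.1).n7

lemma Dt.kind (h : Dt Q P ϖ) {i : ℕ × Bool} (hi : i ∈ ix Q P) :
    (i.1 ∈ Q ∧ D2 (pfx Q ϖ i) i.1) ∨ (i.1 ∈ P ∧ D1 (pfx Q ϖ i) i.1) := by
  rw [mem_ix] at hi
  rcases hi with hi | hi | hi
  · left
    refine ⟨hi.1, h.q _ hi.1, ?_⟩
    unfold pfx
    rw [if_pos hi.1]
  · right
    refine ⟨hi.1, ?_⟩
    unfold pfx
    rw [if_neg (fun h1 => h.disj h1 hi.1), hi.2, if_neg (by simp)]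
    exact h.d1 hi.1
  · right
    refine ⟨hi.1, ?_⟩
    unfold pfx
    rw [if_neg (fun h1 => h.disj h1 hi.1), if_pos hi.2]
    exact (h.d1 hi.1).cj

lemma Dt.ix7 (h : Dt Q P ϖ) : ((7, false) : ℕ × Bool) ∉ ix Q P := fun h1 => h.ne7 h1 rfl

lemma Dt.pf (h : Dt Q P ϖ) {i : ℕ × Bool} (hi : i ∈ ix Q P) : pf7 Q ϖ i = pfx Q ϖ i :=
  if_neg (h.ne7 hi)

lemma pf7_o : pf7 Q ϖ (7, false) = -fR := if_pos rfl

lemma Dt.kind7 (h : Dt Q P ϖ) {i : ℕ × Bool} (hi : i ∈ insert (7, false) (ix Q P)) :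
    D2 (pf7 Q ϖ i) i.1 ∨ D1 (pf7 Q ϖ i) i.1 := by
  rw [Finset.mem_insert] at hi
  rcases hi with rfl | hi
  · right
    rw [pf7_o]
    exact D1_seven
  · rw [h.pf hi]
    rcases h.kind hi with h1 | h1
    · exact Or.inl h1.2
    · exact Or.inr h1.2

lemma not_mem_of {x y : RR} {m n : ℕ} (hm : m.Prime) (hn : n.Prime) (hmn : m ≠ n)
    (hx : nR x = m ∨ nR x = (m : ℤ) ^ 2) (hy : nR y = n ∨ nR y = (n : ℤ) ^ 2) : x ∉ sp y := by
  intro h
  have h1 := nR_dvd h
  have h2 : (n : ℤ) ∣ nR y := by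
    rcases hy with h2 | h2 <;> rw [h2]
    exact dvd_pow_self _ two_ne_zero
  have h3 : (n : ℤ) ∣ nR x := h2.trans h1
  have h4 : (n : ℤ) ∣ m := by
    rcases hx with h4 | h4
    · rwa [h4] at h3
    · rw [h4] at h3
      exact (Nat.prime_iff_prime_int.1 hn).dvd_of_dvd_pow h3
  have h5 : n ∣ m := by exact_mod_cast h4
  exact hmn ((Nat.prime_dvd_prime_iff_eq hn hm).1 h5).symm

lemma D12_pr {x : RR} {p : ℕ} (h : D2 x p ∨ D1 x p) : p.Prime := by
  rcases h with h | h
  · exact h.inp.pr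
  · exact h.pr

lemma D12_nR {x : RR} {p : ℕ} (h : D2 x p ∨ D1 x p) : nR x = p ∨ nR x = (p : ℤ) ^ 2 := by
  rcases h with h | h
  · exact Or.inr h.nR
  · exact Or.inl h.nR

lemma Dt.ne (h : Dt Q P ϖ) {i j : ℕ × Bool} (hi : i ∈ insert (7, false) (ix Q P))
    (hj : j ∈ insert (7, false) (ix Q P)) (hij : i ≠ j) : pf7 Q ϖ i ∉ sp (pf7 Q ϖ j) := by
  have hi' := h.kind7 hi
  have hj' := h.kind7 hj
  by_cases h1 : i.1 = j.1
  · -- the two primes above `p`
    have key : i ∈ ix Q P ∧ j ∈ ix Q P ∧ i.2 ≠ j.2 := by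
      rw [Finset.mem_insert] at hi hj
      have h2 : i.2 ≠ j.2 := fun h2 => hij (Prod.ext h1 h2)
      rcases hi with rfl | hi
      · rcases hj with rfl | hj
        · exact absurd rfl hij
        · exact absurd h1.symm (h.ne7 hj)
      · rcases hj with rfl | hj
        · exact absurd h1 (h.ne7 hi)
        · exact ⟨hi, hj, h2⟩
    obtain ⟨hi, hj, h2⟩ := key
    rw [h.pf hi, h.pf hj]
    have hi3 := mem_ix.1 hi
    have hj3 := mem_ix.1 hj
    have hP : i.1 ∈ P := by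
      rcases hi3 with h3 | h3 | h3
      · rcases hj3 with h4 | h4 | h4
        · exact absurd (h3.2.trans h4.2.symm) h2
        · exact absurd (h3.2.trans h4.2.symm) h2
        · rw [h1]; exact h4.1
      · exact h3.1
      · exact h3.1
    have hQ : i.1 ∉ Q := fun h3 => h.disj h3 hP
    have hd := h.d1 hP
    have h7 := (h.p _ hP).n7
    unfold pfx
    rw [← h1, if_neg hQ, if_neg hQ]
    rcases hi2 : i.2 with _ | _
    · rcases hj2 : j.2 with _ | _
      · exact absurd (hi2.trans hj2.symm) h2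
      · simp only [Bool.false_eq_true, if_false, if_true]
        rw [sp_sg]
        exact ne_cj hd.pr h7 hd.nR
    · rcases hj2 : j.2 with _ | _
      · simp only [Bool.false_eq_true, if_false, if_true]
        intro h8
        have h9 : cj (ϖ i.1) ∈ sp (ϖ i.1) := by
          have := Ideal.mul_mem_left (sp (ϖ i.1)) (sg i.1) h8
          rwa [← mul_assoc, sg_sq, one_mul] at this
        have h10 : cj (cj (ϖ i.1)) ∈ sp (cj (ϖ i.1)) := cj_mem.2 h9
        rw [cj_cj] at h10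
        exact ne_cj hd.pr h7 hd.nR h10
      · exact absurd (hi2.trans hj2.symm) h2
  · exact not_mem_of (D12_pr hi') (D12_pr hj') h1 (D12_nR hi') (D12_nR hj')

theorem Dt.fx7 (h : Dt Q P ϖ) : FX (insert (7, false) (ix Q P)) (pf7 Q ϖ) := by
  refine ⟨fun i hi => ?_, fun i hi j hj hij => h.ne hi hj hij⟩
  rcases h.kind7 hi with h1 | h1
  · exact h1.px
  · exact h1.px

theorem Dt.rec7 (h : Dt Q P ϖ) : RecX (insert (7, false) (ix Q P)) (pf7 Q ϖ) := by
  intro i hi j hj hij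
  unfold mm
  have n1 := h.ne hi hj hij
  have n2 := h.ne hj hi hij.symm
  rcases h.kind7 hi with h1 | h1 <;> rcases h.kind7 hj with h2 | h2
  · rw [nt_D2 h1, zero_mul, rec22 h1 h2 n1, rec22 h2 h1 n2, lg_one, zero_add]
  · rw [nt_D2 h1, zero_mul, add_comm]
    exact rec12 h2 h1 n2 n1
  · rw [nt_D2 h2, mul_zero]
    exact rec12 h1 h2 n1 n2
  · exact rec11 h1 h2 n1 n2

/-- the symbol modulo `√-7` -/
lemma sy_seven (x : RR) : sy (-fR) x = e7 x := by
  have _ : Fact (Nat.Prime 7) := ⟨by norm_num⟩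
  have h1 : sp (-fR) = sp fR := Ideal.span_singleton_neg fR
  rw [sy_congr h1]
  have hs : Function.Surjective r7 := by
    intro t
    obtain ⟨s, hs⟩ := ZMod.intCast_surjective t
    exact ⟨(s : RR), by rw [map_intCast, hs]⟩
  rw [sy_eq r7 hs (fun x => r7_eq_zero)]
  rfl

lemma Dt.fx (h : Dt Q P ϖ) : FX (ix Q P) (pfx Q ϖ) := by
  have h1 := h.fx7.mono (Finset.subset_insert (7, false) (ix Q P))
  exact ⟨fun i hi => h.pf hi ▸ h1.pd i hi,
    fun i hi j hj hij => by
      have := h1.ne i hi j hj hij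
      rwa [h.pf hi, h.pf hj] at this⟩

/-- the sum of the types vanishes -/
theorem Dt.ntsum (h : Dt Q P ϖ) : ∑ i ∈ ix Q P, nt (pf7 Q ϖ i) = 0 := by
  classical
  have h0 : ∀ i ∈ ix Q P, nt (pf7 Q ϖ i) = nt (pfx Q ϖ i) := fun i hi => by rw [h.pf hi]
  rw [Finset.sum_congr rfl h0]
  have hd : Disjoint ((Q ∪ P) ×ˢ ({false} : Finset Bool)) (P ×ˢ ({true} : Finset Bool)) := by
    rw [Finset.disjoint_left]
    intro i hi hj
    rw [Finset.mem_product, Finset.mem_singleton] at hi hj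
    rw [hi.2] at hj
    exact absurd hj.2 (by simp)
  unfold ix
  rw [Finset.sum_union hd, Finset.sum_product, Finset.sum_product]
  simp only [Finset.sum_singleton]
  rw [Finset.sum_union h.dis]
  have h1 : ∑ q ∈ Q, nt (pfx Q ϖ (q, false)) = 0 := by
    refine Finset.sum_eq_zero fun q hq => ?_
    have hm : (q, false) ∈ ix Q P := mem_ix.2 (Or.inl ⟨hq, rfl⟩)
    rcases h.kind hm with h1 | h1
    · exact nt_D2 h1.2
    · exact absurd h1.1 (h.disj hq)
  have h2 : ∀ p ∈ P, ∀ b : Bool, nt (pfx Q ϖ (p, b)) = if p % 4 = 3 then 1 else 0 := by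
    intro p hp b
    have hm : (p, b) ∈ ix Q P := by
      rw [mem_ix]
      rcases b with _ | _
      · exact Or.inr (Or.inl ⟨hp, rfl⟩)
      · exact Or.inr (Or.inr ⟨hp, rfl⟩)
    rcases h.kind hm with h1 | h1
    · exact absurd hp (h.disj h1.1)
    · exact nt_D1 h1.2
  rw [h1, zero_add, ← Finset.sum_add_distrib]
  refine Finset.sum_eq_zero fun p hp => ?_
  rw [h2 p hp false, h2 p hp true]
  exact two_self _

end

end Pool.Agent.L0h4.TW
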