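import Pool.Agent.Y698.SG.Stm
import Pool.Agent.Y286.SG.Rec

/-!
# Determinants over the field with two elements
-/

set_option autoImplicit false
set_option linter.unusedSectionVars false

namespace Pool.Agent.L0h4.TW

open Pool.Agent.Y698.SG

variable {ι : Type} [DecidableEq ι]

lemma two_self (a : ZMod 2) : a + a = 0 := CharTwo.add_self_eq_zero a

lemma sq_self (a : ZMod 2) : a * a = a := by revert a; decide

/-- the number of the rooted forests -/
theorem rec1 (c : ι → ZMod 2) (r : ι → ι → ZMod 2) (S : Finset ι) :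
    ∑ A ∈ S.powerset, gd c r A * ∏ i ∈ S \ A, ∑ j ∈ A, r i j = ∏ i ∈ S, c i := by
  have h1 : ∀ A ∈ S.powerset, gd c r A * ∏ i ∈ S \ A, ∑ j ∈ A, r i j =
      ∑ U ∈ S.powerset.filter (fun U => A ⊆ U),
        (∏ i ∈ S \ U, c i) * (gd c r A * ∏ i ∈ U \ A, (c i + ∑ j ∈ A, r i j)) := by
    intro A hA
    rw [Finset.mem_powerset] at hA
    have e : ∏ i ∈ S \ A, ∑ j ∈ A, r i j = ∏ i ∈ S \ A, ((c i + ∑ j ∈ A, r i j) + c i) :=
      Finset.prod_congr rfl fun i _ => by linear_combination -(two_self (c i))
    rw [e, Finset.prod_add, Finset.mul_sum]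
    refine Finset.sum_nbij' (fun T => A ∪ T) (fun U => U \ A) ?_ ?_ ?_ ?_ ?_
    · intro T hT
      rw [Finset.mem_powerset] at hT
      rw [Finset.mem_filter, Finset.mem_powerset]
      exact ⟨Finset.union_subset hA (hT.trans Finset.sdiff_subset), Finset.subset_union_left⟩
    · intro U hU
      rw [Finset.mem_filter, Finset.mem_powerset] at hU
      rw [Finset.mem_powerset]
      exact Finset.sdiff_subset_sdiff hU.1 subset_rfl
    · intro T hT
      rw [Finset.mem_powerset] at hT
      have hd : Disjoint A T := by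
        rw [Finset.disjoint_left]
        intro x hx hx'
        exact (Finset.mem_sdiff.1 (hT hx')).2 hx
      show (A ∪ T) \ A = T
      rw [Finset.union_sdiff_cancel_left hd]
    · intro U hU
      rw [Finset.mem_filter, Finset.mem_powerset] at hU
      show A ∪ U \ A = U
      exact Finset.union_sdiff_of_subset hU.2
    · intro T hT
      rw [Finset.mem_powerset] at hT
      have hd : Disjoint A T := by
        rw [Finset.disjoint_left]
        intro x hx hx'
        exact (Finset.mem_sdiff.1 (hT hx')).2 hx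
      have e1 : (A ∪ T) \ A = T := Finset.union_sdiff_cancel_left hd
      have e2 : S \ (A ∪ T) = (S \ A) \ T := (sdiff_sdiff_left (a := S) (b := A) (c := T)).symm
      show gd c r A * ((∏ i ∈ T, (c i + ∑ j ∈ A, r i j)) * ∏ i ∈ (S \ A) \ T, c i) =
        (∏ i ∈ S \ (A ∪ T), c i) * (gd c r A * ∏ i ∈ (A ∪ T) \ A, (c i + ∑ j ∈ A, r i j))
      rw [e1, e2]
      ring
  rw [Finset.sum_congr rfl h1]
  have h2 : ∑ A ∈ S.powerset, ∑ U ∈ S.powerset.filter (fun U => A ⊆ U),
        (∏ i ∈ S \ U, c i) * (gd c r A * ∏ i ∈ U \ A, (c i + ∑ j ∈ A, r i j)) =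
      ∑ U ∈ S.powerset, ∑ A ∈ U.powerset,
        (∏ i ∈ S \ U, c i) * (gd c r A * ∏ i ∈ U \ A, (c i + ∑ j ∈ A, r i j)) := by
    refine Finset.sum_comm' ?_
    intro A U
    rw [Finset.mem_powerset, Finset.mem_filter, Finset.mem_powerset, Finset.mem_powerset]
    exact ⟨fun h => ⟨h.2.2, h.2.1⟩, fun h => ⟨h.1.trans h.2, h.2, h.1⟩⟩
  rw [h2]
  have h3 : ∀ U ∈ S.powerset, ∑ A ∈ U.powerset,
        (∏ i ∈ S \ U, c i) * (gd c r A * ∏ i ∈ U \ A, (c i + ∑ j ∈ A, r i j)) =
      if U = ∅ then ∏ i ∈ S, c i else 0 := by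
    intro U _
    rw [← Finset.mul_sum]
    split_ifs with h
    · subst h
      have e0 : gd c r ∅ = 1 := by
        unfold gd
        exact Matrix.det_isEmpty
      rw [Finset.powerset_empty, Finset.sum_singleton, e0]
      simp
    · rw [Pool.Agent.Y286.SG.t_REC ι c r U (Finset.nonempty_iff_ne_empty.2 h), mul_zero]
  rw [Finset.sum_congr rfl h3, Finset.sum_ite_eq' S.powerset ∅,
    if_pos (Finset.empty_mem_powerset S)]

/-- the entries of the matrix -/
def gm (c : ι → ZMod 2) (r : ι → ι → ZMod 2) (S : Finset ι) : Matrix S S (ZMod 2) :=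
  Matrix.of fun i j : S => if i = j then c i + ∑ k ∈ S.erase i, r i k else r i j

lemma gd_gm (c : ι → ZMod 2) (r : ι → ι → ZMod 2) (S : Finset ι) :
    gd c r S = (gm c r S).det := rfl

lemma gd_val (c : ι → ZMod 2) (r : ι → ι → ZMod 2) (S : Finset ι) :
    gd c r S = 0 ∨ gd c r S = 1 := by
  generalize gd c r S = a
  revert a
  decide

/-- the product of the matrix with a vector -/
lemma gm_mulVec (c : ι → ZMod 2) (r : ι → ι → ZMod 2) (S : Finset ι) (x : ι → ZMod 2) (i : S) :
    (gm c r S).mulVec (fun j => x j) i = c i * x i + ∑ j ∈ S, r i j * (x i + x j) := by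
  have h1 : (gm c r S).mulVec (fun j => x j) i =
      ∑ j : S, (if i = j then c i + ∑ k ∈ S.erase i, r i k else r i j) * x j := rfl
  have h2 : ∑ j : S, (if i = j then c i + ∑ k ∈ S.erase i, r i k else r i j) * x j =
      ∑ j ∈ S, (if (i : ι) = j then c i + ∑ k ∈ S.erase i, r i k else r i j) * x j := by
    rw [← Finset.sum_coe_sort S (fun j => (if (i : ι) = j then c i + ∑ k ∈ S.erase i, r i k
      else r i j) * x j)]
    refine Finset.sum_congr rfl fun j _ => ?_
    by_cases h : i = j
    · rw [if_pos h, if_pos (congrArg Subtype.val h)]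
    · rw [if_neg h, if_neg (fun h' => h (Subtype.ext h'))]
  rw [h1, h2, ← Finset.add_sum_erase S _ i.2, if_pos rfl, ← Finset.add_sum_erase S
    (fun j => r i j * (x i + x j)) i.2, two_self, mul_zero, zero_add]
  have h3 : ∑ j ∈ S.erase i, (if (i : ι) = j then c i + ∑ k ∈ S.erase i, r i k else r i j) * x j =
      ∑ j ∈ S.erase i, r i j * x j := by
    refine Finset.sum_congr rfl fun j hj => ?_
    rw [if_neg (Finset.ne_of_mem_erase hj).symm]
  rw [h3]
  simp only [mul_add]
  rw [Finset.sum_add_distrib, ← Finset.sum_mul]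
  ring

/-- the kernel -/
theorem gd_ker (c : ι → ZMod 2) (r : ι → ι → ZMod 2) (S : Finset ι) :
    gd c r S ≠ 0 ↔ ∀ x : ι → ZMod 2, (∀ i ∈ S, c i * x i + ∑ j ∈ S, r i j * (x i + x j) = 0) →
      ∀ i ∈ S, x i = 0 := by
  rw [gd_gm]
  constructor
  · intro h x hx i hi
    by_contra hne
    apply h
    refine Matrix.exists_mulVec_eq_zero_iff.1 ⟨fun j : S => x j, ?_, ?_⟩
    · intro h0
      exact hne (congrFun h0 ⟨i, hi⟩)
    · funext j
      rw [gm_mulVec]
      exact hx j j.2
  · intro h hd
    obtain ⟨x, hne, hx⟩ := Matrix.exists_mulVec_eq_zero_iff.2 hd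
    apply hne
    set y : ι → ZMod 2 := fun i => if h : i ∈ S then x ⟨i, h⟩ else 0 with hy
    have hyx : (fun j : S => y j) = x := by
      funext j
      exact dif_pos j.2
    have h1 := h y (fun i hi => by
      rw [← gm_mulVec c r S y ⟨i, hi⟩, hyx, hx]
      rfl)
    funext j
    have h2 := h1 j j.2
    have h3 : y j = x j := congrFun hyx j
    rw [← h3, h2]
    rfl

/-- the types and the reciprocity law -/
def Recip (n : ι → ZMod 2) (m : ι → ι → ZMod 2) (S : Finset ι) : Prop :=
  ∀ i ∈ S, ∀ j ∈ S, i ≠ j → m i j + m j i = n i * n j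

lemma Recip.mono {n : ι → ZMod 2} {m : ι → ι → ZMod 2} {S T : Finset ι} (h : Recip n m S)
    (hT : T ⊆ S) : Recip n m T := fun i hi j hj => h i (hT hi) j (hT hj)

/-- the sum of a row and of a column -/
lemma Recip.row {n : ι → ZMod 2} {m : ι → ι → ZMod 2} {S : Finset ι} (h : Recip n m S) {i : ι}
    (hi : i ∈ S) : ∑ k ∈ S.erase i, m i k + ∑ k ∈ S.erase i, m k i = n i * (∑ k ∈ S, n k + 1) := by
  rw [← Finset.sum_add_distrib]
  have h1 : ∑ k ∈ S.erase i, (m i k + m k i) = ∑ k ∈ S.erase i, n i * n k :=
    Finset.sum_congr rfl fun k hk => h i hi k (Finset.mem_of_mem_erase hk)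
      (Finset.ne_of_mem_erase hk).symm
  rw [h1, ← Finset.mul_sum, ← Finset.add_sum_erase S n hi]
  linear_combination -(sq_self (n i)) - two_self (n i)

/-- the transposed matrix -/
theorem gd_transp {n : ι → ZMod 2} {m : ι → ι → ZMod 2} {S : Finset ι} (h : Recip n m S)
    (hn : ∑ k ∈ S, n k = 0) (c : ι → ZMod 2) :
    gd (fun i => c i + n i) (fun i j => m j i) S = gd c m S := by
  rw [gd_gm, gd_gm, ← Matrix.det_transpose]
  congr 1
  ext i j
  rw [Matrix.transpose_apply]
  unfold gm
  rw [Matrix.of_apply, Matrix.of_apply]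
  by_cases hij : i = j
  · subst hij
    rw [if_pos rfl, if_pos rfl]
    have h1 := h.row i.2
    rw [hn, zero_add, mul_one] at h1
    have h2 := two_self (∑ k ∈ S.erase i, m k i)
    linear_combination -h1 + h2
  · rw [if_neg hij, if_neg (Ne.symm hij)]

/-- even sets -/
theorem gd_even {n : ι → ZMod 2} {m : ι → ι → ZMod 2} {S : Finset ι} (h : Recip n m S)
    (hn : ∑ k ∈ S, n k = 0) (hS : S.Nonempty) : gd n m S = 0 := by
  by_contra hne
  have h1 : gd (fun i => n i + n i) (fun i j => m j i) S ≠ 0 := by
    rw [gd_transp h hn n]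
    exact hne
  rw [gd_ker] at h1
  obtain ⟨i, hi⟩ := hS
  have h2 := h1 (fun _ => 1) (fun i _ => by
    rw [two_self (n i), zero_mul, zero_add]
    refine Finset.sum_eq_zero fun j _ => ?_
    rw [two_self (1 : ZMod 2), mul_zero]) i hi
  exact one_ne_zero h2

/-- the Laplace matrix -/
def lap (m : ι → ι → ZMod 2) (S : Finset ι) (x : ι → ZMod 2) (i : ι) : ZMod 2 :=
  ∑ j ∈ S, m i j * (x i + x j)

lemma lap_sum {n : ι → ZMod 2} {m : ι → ι → ZMod 2} {S : Finset ι} (h : Recip n m S)
    (hn : ∑ k ∈ S, n k = 1) (x : ι → ZMod 2) : ∑ i ∈ S, lap m S x i = 0 := by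
  have h1 : ∀ i ∈ S, lap m S x i = x i * ∑ k ∈ S.erase i, m i k + ∑ k ∈ S.erase i, m i k * x k := by
    intro i hi
    unfold lap
    rw [← Finset.add_sum_erase S _ hi, two_self, mul_zero, zero_add]
    simp only [mul_add]
    rw [Finset.sum_add_distrib, Finset.mul_sum]
    congr 1
    exact Finset.sum_congr rfl fun k _ => mul_comm _ _
  have h2 : ∑ i ∈ S, ∑ k ∈ S.erase i, m i k * x k = ∑ k ∈ S, ∑ i ∈ S.erase k, m i k * x k := by
    refine Finset.sum_comm' ?_
    intro i k
    rw [Finset.mem_erase, Finset.mem_erase]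
    tauto
  rw [Finset.sum_congr rfl h1, Finset.sum_add_distrib, h2, ← Finset.sum_add_distrib]
  refine Finset.sum_eq_zero fun i hi => ?_
  have h3 := h.row hi
  rw [hn, two_self, mul_zero] at h3
  rw [← Finset.sum_mul, mul_comm (∑ k ∈ S.erase i, m k i), ← mul_add, h3, mul_zero]

/-- odd sets: the determinant in terms of the Laplace matrix -/
theorem gd_odd {n : ι → ZMod 2} {m : ι → ι → ZMod 2} {S : Finset ι} (h : Recip n m S)
    (hn : ∑ k ∈ S, n k = 1) : gd n m S ≠ 0 ↔ ∀ x : ι → ZMod 2, (∀ i ∈ S, lap m S x i = 0) →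
      ∑ i ∈ S, n i * x i = 0 → ∀ i ∈ S, x i = 0 := by
  -- the transposed matrix
  have ht : ∀ (x : ι → ZMod 2) (i : S), ((gm n m S).transpose).mulVec (fun j => x j) i =
      lap m S x i + n i * ∑ k ∈ S, n k * x k := by
    intro x i
    have h1 : ((gm n m S).transpose).mulVec (fun j => x j) i =
      ∑ j : S, (if j = i then n j + ∑ k ∈ S.erase j, m j k else m j i) * x j := rfl
    have h2 : ∑ j : S, (if j = i then n j + ∑ k ∈ S.erase j, m j k else m j i) * x j =
        ∑ j ∈ S, (if j = (i : ι) then n j + ∑ k ∈ S.erase j, m j k else m j i) * x j := by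
      rw [← Finset.sum_coe_sort S (fun j => (if j = (i : ι) then n j + ∑ k ∈ S.erase j, m j k
        else m j i) * x j)]
      refine Finset.sum_congr rfl fun j _ => ?_
      by_cases h : j = i
      · rw [if_pos h, if_pos (congrArg Subtype.val h)]
      · rw [if_neg h, if_neg (fun h' => h (Subtype.ext h'))]
    have h3 : ∑ j ∈ S.erase i, (if j = (i : ι) then n j + ∑ k ∈ S.erase j, m j k else m j i) * x j =
        ∑ j ∈ S.erase i, (m i j * x j + n i * (n j * x j)) := by
      refine Finset.sum_congr rfl fun j hj => ?_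
      rw [if_neg (Finset.ne_of_mem_erase hj)]
      have h4 := h j (Finset.mem_of_mem_erase hj) i i.2 (Finset.ne_of_mem_erase hj)
      have h5 := two_self (m i j)
      linear_combination x j * h4 - x j * h5
    rw [h1, h2, ← Finset.add_sum_erase S _ i.2, if_pos rfl, h3, Finset.sum_add_distrib,
      ← Finset.mul_sum]
    unfold lap
    rw [← Finset.add_sum_erase S (fun j => m i j * (x i + x j)) i.2, two_self, mul_zero, zero_add,
      ← Finset.add_sum_erase S (fun k => n k * x k) i.2]
    simp only [mul_add]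
    rw [Finset.sum_add_distrib, ← Finset.sum_mul]
    have h6 := sq_self (n i)
    linear_combination -(x i) * h6
  rw [gd_gm, ← Matrix.det_transpose]
  constructor
  · intro hd x hx hnx i hi
    by_contra hne
    apply hd
    refine Matrix.exists_mulVec_eq_zero_iff.1 ⟨fun j : S => x j, ?_, ?_⟩
    · intro h0
      exact hne (congrFun h0 ⟨i, hi⟩)
    · funext j
      rw [ht, hx j j.2, hnx, mul_zero, add_zero]
      rfl
  · intro hk hd
    obtain ⟨x, hne, hx⟩ := Matrix.exists_mulVec_eq_zero_iff.2 hd
    apply hne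
    set y : ι → ZMod 2 := fun i => if h : i ∈ S then x ⟨i, h⟩ else 0 with hy
    have hyx : (fun j : S => y j) = x := by
      funext j
      exact dif_pos j.2
    have h1 : ∀ i ∈ S, lap m S y i + n i * ∑ k ∈ S, n k * y k = 0 := by
      intro i hi
      rw [← ht y ⟨i, hi⟩, hyx, hx]
      rfl
    have h2 : ∑ k ∈ S, n k * y k = 0 := by
      have h3 := Finset.sum_congr rfl h1
      rw [Finset.sum_const_zero, Finset.sum_add_distrib, lap_sum h hn, zero_add, ← Finset.sum_mul,
        hn, one_mul] at h3
      exact h3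
    have h3 := hk y (fun i hi => by
      have := h1 i hi
      rwa [h2, mul_zero, add_zero] at this) h2
    funext j
    have h4 := h3 j j.2
    have h5 : y j = x j := congrFun hyx j
    rw [← h5, h4]
    rfl

/-- **removing a root of odd type** -/
theorem gd_root {n : ι → ZMod 2} {m : ι → ι → ZMod 2} {A : Finset ι} {o : ι} (ho : o ∉ A)
    (h : Recip n m (insert o A)) (hno : n o = 1) (hn : ∑ k ∈ A, n k = 0) :
    gd n m (insert o A) = gd (fun i => m i o) m A := by
  have hn1 : ∑ k ∈ insert o A, n k = 1 := by rw [Finset.sum_insert ho, hno, hn, add_zero]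
  have key : gd n m (insert o A) ≠ 0 ↔ gd (fun i => m i o) m A ≠ 0 := by
    rw [gd_odd h hn1, gd_ker]
    constructor
    · intro hk y hy
      set y' : ι → ZMod 2 := fun i => if i ∈ A then y i else 0 with hy'
      have e1 : ∀ i ∈ A, y' i = y i := fun i hi => if_pos hi
      have e0 : y' o = 0 := if_neg ho
      have hL : ∀ i ∈ A, lap m (insert o A) y' i = 0 := by
        intro i hi
        unfold lap
        rw [Finset.sum_insert ho, e0, add_zero, e1 i hi]
        have h1 := hy i hi
        have h2 : ∑ j ∈ A, m i j * (y i + y' j) = ∑ j ∈ A, m i j * (y i + y j) :=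
          Finset.sum_congr rfl fun j hj => by rw [e1 j hj]
        rw [h2]
        exact h1
      have hLo : lap m (insert o A) y' o = 0 := by
        have h1 := lap_sum h hn1 y'
        rw [Finset.sum_insert ho, Finset.sum_eq_zero hL, add_zero] at h1
        exact h1
      set t := ∑ i ∈ insert o A, n i * y' i with ht
      have hx := hk (fun i => y' i + t) (fun i hi => by
        have h1 : lap m (insert o A) (fun i => y' i + t) i = lap m (insert o A) y' i := by
          unfold lap
          refine Finset.sum_congr rfl fun j _ => ?_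
          linear_combination m i j * two_self t
        rw [h1]
        rcases Finset.mem_insert.1 hi with h2 | h2
        · rw [h2]
          exact hLo
        · exact hL i h2) (by
        simp only [mul_add]
        rw [Finset.sum_add_distrib, ← Finset.sum_mul, hn1, one_mul, ← ht]
        exact two_self t)
      have h0 := hx o (Finset.mem_insert_self _ _)
      simp only [e0, zero_add] at h0
      intro i hi
      have h1 := hx i (Finset.mem_insert_of_mem hi)
      simp only [h0, add_zero] at h1
      rw [← e1 i hi]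
      exact h1
    · intro hk x hx hnx
      have h1 : ∀ i ∈ A, x i + x o = 0 := hk (fun i => x i + x o) (fun i hi => by
        have h2 := hx i (Finset.mem_insert_of_mem hi)
        unfold lap at h2
        rw [Finset.sum_insert ho] at h2
        rw [← h2]
        congr 1
        refine Finset.sum_congr rfl fun j _ => ?_
        linear_combination m i j * two_self (x o))
      have h2 : ∀ i ∈ A, x i = x o := fun i hi => by
        linear_combination h1 i hi - two_self (x o)
      have h3 : x o = 0 := by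
        rw [Finset.sum_insert ho, hno, one_mul, Finset.sum_congr rfl (fun i hi => by rw [h2 i hi]),
          ← Finset.sum_mul, hn, zero_mul, add_zero] at hnx
        exact hnx
      intro i hi
      rcases Finset.mem_insert.1 hi with h4 | h4
      · rw [h4, h3]
      · rw [h2 i h4, h3]
  rcases gd_val n m (insert o A) with h1 | h1 <;> rcases gd_val (fun i => m i o) m A with h2 | h2
  · rw [h1, h2]
  · exfalso
    have := key.2 (by rw [h2]; exact one_ne_zero)
    exact this h1
  · exfalso
    have := key.1 (by rw [h1]; exact one_ne_zero)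
    exact this h2
  · rw [h1, h2]

end Pool.Agent.L0h4.TW
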