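import Pool.Agent.L0h4.TW.Bv
import Pool.Agent.L0h4.TW.Rec
import Pool.Agent.Y279.SG.PI

/-!
# The symbols modulo the prime elements
-/

set_option autoImplicit false
set_option linter.unusedSectionVars false

open Filter
open scoped Topology PeriodPair

namespace Pool.Agent.L0h4.TW

open Pool.Agent.Y698 Pool.Agent.Y698.SG
open H667R3 Pool.Agent.W192.HK Pool.Agent.TH936.CM Pool.Agent.TH936.PU
open Pool.Agent.Y279.SG (sy_eq sy_cj)

section
variable {ϖ : RR}

/-- the symbol is the quadratic character of the residue field -/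
lemma sy_quot (h : Prime ϖ) : ∃ (F : Type) (_ : Field F) (_ : Fintype F) (_ : DecidableEq F)
    (φ : RR →+* F), Function.Surjective φ ∧ (∀ x, φ x = 0 ↔ x ∈ sp ϖ) ∧
      (∀ x, sy ϖ x = ((quadraticChar F (φ x) : ℤ) : ℂ)) ∧ (Fintype.card F : ℤ) = nR ϖ := by
  classical
  have hm := maximal_sp h.irreducible
  have f1 := fin_quot h.ne_zero
  let i1 : Field (RR ⧸ sp ϖ) := Ideal.Quotient.field (sp ϖ)
  let i2 : Fintype (RR ⧸ sp ϖ) := Fintype.ofFinite _
  have hs : Function.Surjective (Ideal.Quotient.mk (sp ϖ)) := Ideal.Quotient.mk_surjective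
  have hk : ∀ x, Ideal.Quotient.mk (sp ϖ) x = 0 ↔ x ∈ sp ϖ := fun x =>
    Ideal.Quotient.eq_zero_iff_mem
  refine ⟨RR ⧸ sp ϖ, i1, i2, inferInstance, Ideal.Quotient.mk (sp ϖ), hs, hk,
    fun x => sy_eq _ hs hk x, ?_⟩
  have hb := Pool.Agent.W287.HK.h_basic RR al qr
  have h6 := hb.2.2.2.2.1 ϖ
  unfold nm at h6
  rw [Nat.card_eq_fintype_card, normSq_coe] at h6
  exact_mod_cast h6

lemma sy_mul' (h : Prime ϖ) (x y : RR) : sy ϖ (x * y) = sy ϖ x * sy ϖ y := by
  obtain ⟨F, _, _, _, φ, -, -, h1, -⟩ := sy_quot h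
  rw [h1, h1, h1, map_mul, map_mul]
  push_cast
  rfl

lemma two_notin (hodd : IsCoprime (2 : RR) ϖ) (h : Prime ϖ) : (2 : RR) ∉ sp ϖ := by
  intro h1
  rw [Ideal.mem_span_singleton] at h1
  have h2 := hodd.isUnit_of_dvd' h1 dvd_rfl
  exact h.not_isUnit h2

/-- the type of a prime element -/
noncomputable def nt (ϖ : RR) : ZMod 2 := lg (sy ϖ (-1))

lemma neg_one_notin (h : Prime ϖ) : (-1 : RR) ∉ sp ϖ := by
  intro h1
  rw [Ideal.mem_span_singleton] at h1
  exact h.not_isUnit (isUnit_of_dvd_unit h1 isUnit_one.neg)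

lemma sy_neg_one (h : Prime ϖ) : sy ϖ (-1) = 1 ∨ sy ϖ (-1) = -1 := sy_sgn (neg_one_notin h)

/-- the type and the norm -/
lemma nt_norm (h : Prime ϖ) :
    nt ϖ = if nR ϖ % 4 = 3 then 1 else 0 := by
  obtain ⟨F, _, _, _, φ, -, h0, h1, h2⟩ := sy_quot h
  unfold nt
  have h3 : φ (-1) = -1 := by rw [map_neg, map_one]
  have h4 : (-1 : F) ≠ 0 := neg_ne_zero.2 one_ne_zero
  rw [h1, h3, ← h2]
  by_cases h5 : IsSquare (-1 : F)
  · rw [(quadraticChar_one_iff_isSquare h4).2 h5, Int.cast_one, lg_one, if_neg]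
    have := FiniteField.isSquare_neg_one_iff.1 h5
    omega
  · rw [quadraticChar_neg_one_iff_not_isSquare.2 h5, Int.cast_neg, Int.cast_one, lg_neg_one,
      if_pos]
    have h6 : ¬ (Fintype.card F % 4 ≠ 3) := fun h => h5 (FiniteField.isSquare_neg_one_iff.2 h)
    omega

/-- the number of the squares -/
theorem card_sq (hodd : IsCoprime (2 : RR) ϖ) (h : Prime ϖ) : ∃ s : ℕ, (s : ZMod 2) = nt ϖ ∧
    ∑ᶠ x : RR ⧸ sp ϖ, hc ϖ x.out = (s : ℂ) := by
  classical
  have hm := maximal_sp h.irreducible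
  have f1 := fin_quot h.ne_zero
  let i1 : Field (RR ⧸ sp ϖ) := Ideal.Quotient.field (sp ϖ)
  let i2 : Fintype (RR ⧸ sp ϖ) := Fintype.ofFinite _
  have hs : Function.Surjective (Ideal.Quotient.mk (sp ϖ)) := Ideal.Quotient.mk_surjective
  have hk : ∀ x, Ideal.Quotient.mk (sp ϖ) x = 0 ↔ x ∈ sp ϖ := fun x =>
    Ideal.Quotient.eq_zero_iff_mem
  have hsy := sy_eq (Ideal.Quotient.mk (sp ϖ)) hs hk
  have h20 : (2 : RR ⧸ sp ϖ) ≠ 0 := by
    intro h0
    have h1 : Ideal.Quotient.mk (sp ϖ) 2 = 0 := by rw [map_ofNat]; exact h0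
    exact two_notin hodd h ((hk 2).1 h1)
  have hch : ringChar (RR ⧸ sp ϖ) ≠ 2 := by
    intro h1
    apply h20
    have h2 := ringChar.Nat.cast_ringChar (R := RR ⧸ sp ϖ)
    rw [h1] at h2
    exact_mod_cast h2
  set s := (Finset.univ.filter fun x : RR ⧸ sp ϖ => quadraticChar (RR ⧸ sp ϖ) x = 1).card with hsd
  set t := (Finset.univ.filter fun x : RR ⧸ sp ϖ => quadraticChar (RR ⧸ sp ϖ) x = -1).card with htd
  have hval : ∀ x : RR ⧸ sp ϖ, quadraticChar (RR ⧸ sp ϖ) x =
      (if quadraticChar (RR ⧸ sp ϖ) x = 1 then 1 else 0) -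
        (if quadraticChar (RR ⧸ sp ϖ) x = -1 then 1 else 0) := by
    intro x
    by_cases hx : x = 0
    · rw [hx, MulChar.map_zero]
      norm_num
    · rcases quadraticChar_dichotomy hx with h1 | h1 <;> rw [h1] <;> norm_num
  have hst : (s : ℤ) = t := by
    have h1 := quadraticChar_sum_zero hch
    rw [Finset.sum_congr rfl (fun x _ => hval x), Finset.sum_sub_distrib, Finset.sum_boole,
      Finset.sum_boole] at h1
    have h2 : ((s : ℕ) : ℤ) - (t : ℕ) = 0 := h1
    linarith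
  have hcard : Fintype.card (RR ⧸ sp ϖ) = s + t + 1 := by
    have h1 : (Finset.univ : Finset (RR ⧸ sp ϖ)) =
        insert 0 ((Finset.univ.filter fun x : RR ⧸ sp ϖ => quadraticChar (RR ⧸ sp ϖ) x = 1) ∪
        (Finset.univ.filter fun x : RR ⧸ sp ϖ => quadraticChar (RR ⧸ sp ϖ) x = -1)) := by
      ext x
      simp only [Finset.mem_univ, Finset.mem_insert, Finset.mem_union, Finset.mem_filter,
        true_and, true_iff]
      by_cases hx : x = 0
      · exact Or.inl hx
      · exact Or.inr (quadraticChar_dichotomy hx)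
    rw [← Finset.card_univ, h1, Finset.card_insert_of_notMem, Finset.card_union_of_disjoint]
    · rw [Finset.disjoint_left]
      intro x hx hx'
      rw [Finset.mem_filter] at hx hx'
      rw [hx.2] at hx'
      norm_num at hx'
    · rw [Finset.mem_union, Finset.mem_filter, Finset.mem_filter, MulChar.map_zero]
      norm_num
  have hst' : s = t := by exact_mod_cast hst
  refine ⟨s, ?_, ?_⟩
  · -- the parity
    unfold nt
    rw [hsy]
    have h3 : Ideal.Quotient.mk (sp ϖ) (-1) = -1 := by rw [map_neg, map_one]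
    have h4 : (-1 : RR ⧸ sp ϖ) ≠ 0 := neg_ne_zero.2 one_ne_zero
    rw [h3]
    by_cases h5 : IsSquare (-1 : RR ⧸ sp ϖ)
    · rw [(quadraticChar_one_iff_isSquare h4).2 h5, Int.cast_one, lg_one]
      have h6 := FiniteField.isSquare_neg_one_iff.1 h5
      have h7 : s % 2 = 0 := by omega
      rw [ZMod.natCast_eq_zero_iff]
      omega
    · rw [quadraticChar_neg_one_iff_not_isSquare.2 h5, Int.cast_neg, Int.cast_one, lg_neg_one]
      have h6 : ¬ (Fintype.card (RR ⧸ sp ϖ) % 4 ≠ 3) := fun h =>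
        h5 (FiniteField.isSquare_neg_one_iff.2 h)
      have h7 : s % 2 = 1 := by omega
      have h8 : ((s : ℕ) : ZMod 2) = ((1 : ℕ) : ZMod 2) := by
        rw [ZMod.natCast_eq_natCast_iff]
        exact h7
      rw [h8, Nat.cast_one]
  · rw [finsum_eq_sum_of_fintype]
    have h1 : ∀ x : RR ⧸ sp ϖ, hc ϖ x.out =
        if quadraticChar (RR ⧸ sp ϖ) x = 1 then 1 else 0 := by
      intro x
      unfold hc
      rw [hsy, Ideal.Quotient.mk_out]
      unfold tr
      by_cases hx : x = 0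
      · have h2 : Quotient.out x ∈ sp ϖ := by
          rw [← Ideal.Quotient.eq_zero_iff_mem, Ideal.Quotient.mk_out, hx]
        rw [if_pos h2, hx, MulChar.map_zero]
        norm_num
      · have h2 : Quotient.out x ∉ sp ϖ := by
          rw [← Ideal.Quotient.eq_zero_iff_mem, Ideal.Quotient.mk_out]
          exact hx
        rw [if_neg h2]
        rcases quadraticChar_dichotomy hx with h1 | h1 <;> rw [h1] <;> norm_num
    rw [Finset.sum_congr rfl (fun x _ => h1 x), Finset.sum_boole]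

end

/-! ### the number of the common squares -/

/-- sums of products of periodic functions -/
lemma sum_crt {a f : RR} (ha : a ≠ 0) (hf : f ≠ 0) (hcop : IsCoprime a f) {φ ψ : RR → ℂ}
    (hφ : Pe f φ) (hψ : Pe a ψ) : ∑ᶠ x : RR ⧸ sp (a * f), φ x.out * ψ x.out =
      (∑ᶠ x : RR ⧸ sp f, φ x.out) * ∑ᶠ x : RR ⧸ sp a, ψ x.out := by
  have haf : a * f ≠ 0 := mul_ne_zero ha hf
  have f1 := fin_quot ha
  have f2 := fin_quot hf
  have f3 := fin_quot haf
  let _ : Fintype (RR ⧸ sp a) := Fintype.ofFinite _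
  let _ : Fintype (RR ⧸ sp f) := Fintype.ofFinite _
  let _ : Fintype (RR ⧸ sp (a * f)) := Fintype.ofFinite _
  rw [finsum_eq_sum_of_fintype, finsum_eq_sum_of_fintype, finsum_eq_sum_of_fintype]
  have hb := bij_mul (R := RR) (a := a) (f := f) hf
  rw [sum_rep _ hb (fun x : RR => φ x * ψ x) (fun x y h => by
    show φ x * ψ x = φ y * ψ y
    rw [hφ.mono (Dvd.intro_left a rfl) x y h, hψ.mono (Dvd.intro _ rfl) x y h]),
    Fintype.sum_prod_type, Finset.sum_mul]
  refine Finset.sum_congr rfl fun y _ => ?_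
  have h1 : ∀ t : RR ⧸ sp a, φ (y.out + f * t.out) = φ y.out := by
    intro t
    apply hφ
    rw [add_sub_cancel_left, Ideal.mem_span_singleton']
    exact ⟨t.out, mul_comm _ _⟩
  simp only [h1]
  rw [← Finset.mul_sum]
  congr 1
  have hg : Function.Bijective (fun t : RR ⧸ sp a => Ideal.Quotient.mk (sp a)
      (y.out + f * t.out)) := by
    have hu : IsUnit (Ideal.Quotient.mk (sp a) f) := by
      obtain ⟨s, t, hst⟩ := hcop
      refine IsUnit.of_mul_eq_one (Ideal.Quotient.mk (sp a) t) ?_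
      rw [← map_mul, ← map_one (Ideal.Quotient.mk (sp a)), Ideal.Quotient.mk_eq_mk_iff_sub_mem,
        Ideal.mem_span_singleton']
      exact ⟨-s, by linear_combination -hst⟩
    obtain ⟨u, hu⟩ := hu
    have e1 : (fun t : RR ⧸ sp a => Ideal.Quotient.mk (sp a) (y.out + f * t.out)) =
        fun t => (Equiv.addLeft (Ideal.Quotient.mk (sp a) y.out)) ((Units.mulLeft u) t) := by
      funext t
      rw [map_add, map_mul, Ideal.Quotient.mk_out, Units.mulLeft_apply, hu]
      rfl
    rw [e1]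
    exact (Equiv.bijective _).comp (Units.mulLeft u).bijective
  exact (sum_rep _ hg ψ (fun x y h => hψ x y h)).symm

lemma cop_of {ϖ x : RR} (h : Prime ϖ) (hx : x ∉ sp ϖ) : IsCoprime ϖ x := by
  rw [← Ideal.isCoprime_span_singleton_iff]
  by_contra hc
  exact hx ((not_coprime_iff h.irreducible x).1 (fun h1 => hc h1.symm))

lemma FX.cop {ι : Type} {S : Finset ι} {π : ι → RR} (h : FX S π) {i : ι} (hi : i ∈ S)
    {T : Finset ι} (hT : T ⊆ S) (hiT : i ∉ T) : IsCoprime (π i) (∏ j ∈ T, π j) :=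
  IsCoprime.prod_right fun j hj => cop_of (h.pd i hi).pr fun h1 =>
    h.ne j (hT hj) i hi (fun h2 => hiT (h2 ▸ hj)) h1

theorem card_common {ι : Type} [DecidableEq ι] {S : Finset ι} {π : ι → RR} (hS : FX S π) :
    ∃ s : ℕ, (s : ZMod 2) = ∏ i ∈ S, nt (π i) ∧
      ∑ᶠ x : RR ⧸ sp (∏ i ∈ S, π i), ∏ i ∈ S, hc (π i) x.out = (s : ℂ) := by
  induction S using Finset.induction_on with
  | empty =>
    refine ⟨1, by simp, ?_⟩
    have f1 := fin_quot (one_ne_zero : (1 : RR) ≠ 0)
    simp only [Finset.prod_empty]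
    let _ : Fintype (RR ⧸ sp (1 : RR)) := Fintype.ofFinite _
    have htop : sp (1 : RR) = ⊤ := Ideal.span_singleton_one
    have hsub : Subsingleton (RR ⧸ sp (1 : RR)) := by
      rw [htop]
      infer_instance
    rw [finsum_eq_sum_of_fintype, Finset.sum_const, Finset.card_univ,
      Fintype.card_eq_one_iff.2 ⟨0, fun y => Subsingleton.elim _ _⟩]
    simp
  | insert q S hq ih =>
    have hSs : FX S π := hS.mono (Finset.subset_insert _ _)
    obtain ⟨s, h1, h2⟩ := ih hSs
    have hq1 := hS.pd q (Finset.mem_insert_self _ _)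
    obtain ⟨t, h3, h4⟩ := card_sq hq1.odd hq1.pr
    refine ⟨s * t, ?_, ?_⟩
    · rw [Finset.prod_insert hq]
      push_cast
      rw [h1, h3]
      ring
    · have h5 := sum_crt (a := π q) (f := ∏ i ∈ S, π i) hq1.ne (prod_ne hSs)
        (hS.cop (Finset.mem_insert_self _ _) (Finset.subset_insert _ _) hq)
        (φ := fun m => ∏ i ∈ S, hc (π i) m) (ψ := hc (π q)) (Pe.prod fun p _ => hc_per (π p))
        (hc_per (π q))
      rw [h2, h4] at h5
      rw [Finset.prod_insert hq]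
      push_cast
      rw [← h5]
      congr 1
      funext x
      rw [Finset.prod_insert hq]
      ring

end Pool.Agent.L0h4.TW
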