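import Pool.Agent.L0h4.TW.Def
import Pool.Agent.L0h4.TW.Pr

/-!
# Quadratic reciprocity in the ring of integers of `ℚ(√-7)`
-/

set_option autoImplicit false
set_option linter.unusedSectionVars false

open scoped NumberTheorySymbols

namespace Pool.Agent.L0h4.TW

open Pool.Agent.Y698 Pool.Agent.Y698.SG
open H667R3 Pool.Agent.W192.HK Pool.Agent.TH936.CM Pool.Agent.TH936.PU
open Pool.Agent.Y279.SG (sy_eq sy_cj dec nR_int cXY_cj unit_of_nR nR_dvd red qch_eq cj_mem)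

/-- the value of the basic symbol, the coordinate being a natural number -/
lemma fJ_pos {X : ℤ} {Y n : ℕ} (hn : (n : ℤ) = X ^ 2 + X * Y + 2 * Y ^ 2) (ho : n % 2 = 1)
    (hc : IsCoprime (Y : ℤ) n) (hY : Y ≠ 0) :
    J((Y : ℤ) | n) = if Y % 4 = 0 then 1 else if X % 4 = 1 then -1 else 1 := by
  obtain ⟨k, m, hm, rfl⟩ := Nat.exists_eq_two_pow_mul_odd hY
  have hno : Odd n := Nat.odd_iff.2 ho
  -- the odd part
  have h1 : J((m : ℤ) | n) = (-1) ^ (m / 2 * (n / 2)) := by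
    rw [jacobiSym.quadratic_reciprocity hm hno]
    have h2 : J((n : ℤ) | m) = J(X ^ 2 | m) := by
      apply jacobiSym.mod_left'
      rw [hn]
      apply Int.ModEq.symm
      rw [Int.modEq_iff_dvd]
      refine ⟨X * 2 ^ k + 2 * 2 ^ k * 2 ^ k * m, ?_⟩
      push_cast
      ring
    have h3 : J(X ^ 2 | m) = 1 := by
      apply jacobiSym.sq_one'
      rw [Int.isCoprime_iff_gcd_eq_one.symm]
      have h4 : IsCoprime ((m : ℤ)) (n : ℤ) := hc.of_isCoprime_of_dvd_left (by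
        push_cast
        exact Dvd.intro_left _ rfl)
      rw [hn] at h4
      have h5 : IsCoprime (m : ℤ) (X ^ 2) := by
        have h6 : X ^ 2 + X * ((2 ^ k * m : ℕ) : ℤ) + 2 * ((2 ^ k * m : ℕ) : ℤ) ^ 2 =
            X ^ 2 + (m : ℤ) * (X * 2 ^ k + 2 * 2 ^ k * 2 ^ k * m) := by
          push_cast
          ring
        rw [h6] at h4
        exact IsCoprime.of_add_mul_left_right h4
      exact (IsCoprime.pow_right_iff (by norm_num)).1 h5 |>.symm
    rw [h2, h3, mul_one]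
  have h2 : J(((2 ^ k * m : ℕ) : ℤ) | n) = J(2 | n) ^ k * J((m : ℤ) | n) := by
    push_cast
    rw [jacobiSym.mul_left, jacobiSym.pow_left]
  have h3 : J(2 | n) = ZMod.χ₈ n := jacobiSym.at_two hno
  have hX : X % 2 = 1 := by
    have h4 : (X ^ 2 + X * ((2 ^ k * m : ℕ) : ℤ) + 2 * ((2 ^ k * m : ℕ) : ℤ) ^ 2) % 2 = 1 := by
      rw [← hn]
      omega
    rcases Int.emod_two_eq_zero_or_one X with h | h
    · exfalso
      obtain ⟨t, ht⟩ := Int.dvd_of_emod_eq_zero h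
      rw [ht] at h4
      have : ((2 * t) ^ 2 + 2 * t * ((2 ^ k * m : ℕ) : ℤ) + 2 * ((2 ^ k * m : ℕ) : ℤ) ^ 2) =
        2 * (2 * t ^ 2 + t * ((2 ^ k * m : ℕ) : ℤ) + ((2 ^ k * m : ℕ) : ℤ) ^ 2) := by ring
      omega
    · exact h
  rw [h2, h1, h3]
  have hm2 : m % 2 = 1 := Nat.odd_iff.1 hm
  -- the cases
  rcases k with _ | k
  · exfalso
    rw [pow_zero, one_mul] at hn
    have h4 : (X ^ 2 + X * m + 2 * (m : ℤ) ^ 2) = X * (X + m) + 2 * (m : ℤ) ^ 2 := by ring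
    rw [h4] at hn
    have h5 : (X + m) % 2 = 0 := by omega
    obtain ⟨t, ht⟩ := Int.dvd_of_emod_eq_zero h5
    rw [ht] at hn
    have : X * (2 * t) + 2 * (m : ℤ) ^ 2 = 2 * (X * t + (m : ℤ) ^ 2) := by ring
    omega
  obtain ⟨x, hx⟩ : ∃ x : ℤ, X = 1 + 2 * x := ⟨(X - 1) / 2, by omega⟩
  obtain ⟨μ, hμ⟩ : ∃ μ : ℤ, (m : ℤ) = 1 + 2 * μ := ⟨((m : ℤ) - 1) / 2, by omega⟩
  rcases k with _ | k
  · -- `Y = 2 m`
    have h40 : ¬ (2 ^ (0 + 1) * m) % 4 = 0 := by omega
    rw [if_neg h40, zero_add, pow_one]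
    have e1 : x ^ 2 + x = 2 * (x * (x + 1) / 2) := by
      have : 2 ∣ x * (x + 1) := Int.even_mul_succ_self x |>.two_dvd
      rw [Int.mul_ediv_cancel' this]
      ring
    have e2 : μ ^ 2 + μ = 2 * (μ * (μ + 1) / 2) := by
      have : 2 ∣ μ * (μ + 1) := Int.even_mul_succ_self μ |>.two_dvd
      rw [Int.mul_ediv_cancel' this]
      ring
    have h5 : (n : ℤ) % 8 = (1 + 2 * ((1 + 2 * x) * (1 + 2 * μ))) % 8 := by
      rw [hn]
      push_cast
      rw [hx, hμ]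
      have e3 : (1 + 2 * x) ^ 2 + (1 + 2 * x) * (2 * (1 + 2 * μ)) +
          2 * (2 * (1 + 2 * μ)) ^ 2 = (1 + 2 * ((1 + 2 * x) * (1 + 2 * μ))) +
          8 * (x * (x + 1) / 2 + 1 + 4 * (μ + μ ^ 2)) := by
        linear_combination 4 * e1
      rw [e3]
      omega
    have h6 : (n : ℤ) % 8 = (1 + 2 * (1 + 2 * x + 2 * μ)) % 8 := by
      rw [h5]
      have : 1 + 2 * ((1 + 2 * x) * (1 + 2 * μ)) = 1 + 2 * (1 + 2 * x + 2 * μ) +
        8 * (x * μ) := by ring
      omega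
    have h7 : (n / 2) % 2 = 1 := by omega
    have h8 : ((-1 : ℤ)) ^ (m / 2 * (n / 2)) = if μ % 2 = 0 then 1 else -1 := by
      by_cases hμ2 : μ % 2 = 0
      · rw [if_pos hμ2, Even.neg_one_pow]
        apply Even.mul_right
        rw [Nat.even_iff]
        omega
      · rw [if_neg hμ2, Odd.neg_one_pow]
        apply Odd.mul
        · rw [Nat.odd_iff]
          omega
        · rwa [Nat.odd_iff]
    rw [h8]
    have h9 : ZMod.χ₈ (n : ZMod 8) = if n % 8 = 7 then 1 else -1 := by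
      rw [ZMod.χ₈_nat_eq_if_mod_eight]
      rw [if_neg (by omega)]
      have : n % 8 = 3 ∨ n % 8 = 7 := by omega
      rcases this with h | h <;> simp [h]
    rw [h9]
    by_cases a1 : x % 2 = 0 <;> by_cases a2 : μ % 2 = 0
    · rw [if_neg (show ¬ n % 8 = 7 by omega), if_pos a2, if_pos (show X % 4 = 1 by omega)]
      norm_num
    · rw [if_pos (show n % 8 = 7 by omega), if_neg a2, if_pos (show X % 4 = 1 by omega)]
      norm_num
    · rw [if_pos (show n % 8 = 7 by omega), if_pos a2, if_neg (show ¬ X % 4 = 1 by omega)]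
      norm_num
    · rw [if_neg (show ¬ n % 8 = 7 by omega), if_neg a2, if_neg (show ¬ X % 4 = 1 by omega)]
      norm_num
  · -- `4` divides `Y`
    have h40 : (2 ^ (k + 1 + 1) * m) % 4 = 0 := by
      have : 2 ^ (k + 1 + 1) * m = 4 * (2 ^ k * m) := by ring
      omega
    rw [if_pos h40]
    have e1 : x ^ 2 + x = 2 * (x * (x + 1) / 2) := by
      have : 2 ∣ x * (x + 1) := Int.even_mul_succ_self x |>.two_dvd
      rw [Int.mul_ediv_cancel' this]
      ring
    have h5 : (n : ℤ) % 8 = (1 + 4 * (2 ^ k * m)) % 8 := by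
      rw [hn]
      push_cast
      rw [hx]
      have e3 : (1 + 2 * x) ^ 2 + (1 + 2 * x) * (2 ^ (k + 1 + 1) * (m : ℤ)) +
          2 * (2 ^ (k + 1 + 1) * (m : ℤ)) ^ 2 = (1 + 4 * (2 ^ k * m)) +
          8 * (x * (x + 1) / 2 + x * 2 ^ k * m + 4 * (2 ^ k * m) ^ 2) := by
        linear_combination 4 * e1
      rw [e3]
      omega
    have h7 : (n / 2) % 2 = 0 := by omega
    have h8 : ((-1 : ℤ)) ^ (m / 2 * (n / 2)) = 1 := by
      rw [Even.neg_one_pow]
      apply Even.mul_left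
      rwa [Nat.even_iff]
    rw [h8, mul_one]
    rcases k with _ | k
    · have h9 : n % 8 = 5 := by
        rw [pow_zero, one_mul] at h5
        omega
      rw [ZMod.χ₈_nat_eq_if_mod_eight, if_neg (by omega), h9]
      norm_num
    · have h9 : n % 8 = 1 := by
        have : (1 + 4 * (2 ^ (k + 1) * (m : ℤ))) = 1 + 8 * (2 ^ k * m) := by ring
        rw [this] at h5
        omega
      rw [ZMod.χ₈_nat_eq_if_mod_eight, if_neg (by omega), h9]
      norm_num

/-- the value of the basic symbol -/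
theorem fJ {X Y : ℤ} {n : ℕ} (hn : (n : ℤ) = X ^ 2 + X * Y + 2 * Y ^ 2) (ho : n % 2 = 1)
    (hc : IsCoprime Y (n : ℤ)) (hY : Y ≠ 0) :
    J(Y | n) = if Y % 4 = 0 then 1 else if X % 4 = 1 then -1 else 1 := by
  rcases lt_or_gt_of_ne hY with h | h
  · obtain ⟨y, hy⟩ := Int.eq_ofNat_of_zero_le (show 0 ≤ -Y by omega)
    have h1 : Y = -(y : ℤ) := by omega
    have hno : Odd n := Nat.odd_iff.2 ho
    have h2 := fJ_pos (X := -X) (Y := y) (n := n) (by rw [hn, h1]; ring) ho (by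
      rw [h1] at hc
      exact (IsCoprime.neg_left_iff _ _).1 hc) (by omega)
    have h3 : J(Y | n) = J(-1 | n) * J((y : ℤ) | n) := by
      rw [← jacobiSym.mul_left, h1]
      congr 1
      ring
    rw [h3, h2, jacobiSym.at_neg_one hno, ZMod.χ₄_nat_eq_if_mod_four, if_neg (by omega)]
    -- parities
    have hYe : Y % 2 = 0 ∧ X % 2 = 1 := by
      have h4 : (X ^ 2 + X * Y + 2 * Y ^ 2) % 2 = 1 := by
        rw [← hn]
        omega
      have h5 : X ^ 2 + X * Y + 2 * Y ^ 2 = X * (X + Y) + 2 * Y ^ 2 := by ring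
      rw [h5] at h4
      rcases Int.emod_two_eq_zero_or_one X with h6 | h6
      · obtain ⟨t, ht⟩ := Int.dvd_of_emod_eq_zero h6
        rw [ht] at h4
        have : 2 * t * (2 * t + Y) + 2 * Y ^ 2 = 2 * (t * (2 * t + Y) + Y ^ 2) := by ring
        omega
      · rcases Int.emod_two_eq_zero_or_one Y with h7 | h7
        · exact ⟨h7, h6⟩
        · obtain ⟨t, ht⟩ := Int.dvd_of_emod_eq_zero (show (X + Y) % 2 = 0 by omega)
          rw [ht] at h4
          have : X * (2 * t) + 2 * Y ^ 2 = 2 * (X * t + Y ^ 2) := by ring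
          omega
    have hn4 : (n : ℤ) % 4 = (1 + Y) % 4 := by
      obtain ⟨x, hx⟩ : ∃ x : ℤ, X = 1 + 2 * x := ⟨(X - 1) / 2, by omega⟩
      obtain ⟨z, hz⟩ : ∃ z : ℤ, Y = 2 * z := ⟨Y / 2, by omega⟩
      rw [hn, hx, hz]
      have : (1 + 2 * x) ^ 2 + (1 + 2 * x) * (2 * z) + 2 * (2 * z) ^ 2 =
        1 + 2 * z + 4 * (x + x ^ 2 + x * z + 2 * z ^ 2) := by ring
      omega
    by_cases a1 : Y % 4 = 0
    · rw [if_pos (show n % 4 = 1 by omega), if_pos (show y % 4 = 0 by omega), if_pos a1]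
      norm_num
    · rw [if_neg (show ¬ n % 4 = 1 by omega), if_neg (show ¬ y % 4 = 0 by omega), if_neg a1]
      by_cases a2 : X % 4 = 1
      · rw [if_neg (show ¬ -X % 4 = 1 by omega), if_pos a2]
        norm_num
      · rw [if_pos (show -X % 4 = 1 by omega), if_neg a2]
        norm_num
  · obtain ⟨y, hy⟩ := Int.eq_ofNat_of_zero_le h.le
    rw [hy] at hn hc ⊢
    rw [fJ_pos hn ho hc (by omega)]
    have : ((y : ℤ) % 4 = 0) ↔ (y % 4 = 0) := by omega
    simp only [this]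

/-- an element of odd norm -/
lemma par {x : RR} (h : nR x % 2 = 1) : cX x % 2 = 1 ∧ cY x % 2 = 0 := by
  unfold nR at h
  have h5 : cX x ^ 2 + cX x * cY x + 2 * cY x ^ 2 = cX x * (cX x + cY x) + 2 * cY x ^ 2 := by ring
  rw [h5] at h
  rcases Int.emod_two_eq_zero_or_one (cX x) with h6 | h6
  · obtain ⟨t, ht⟩ := Int.dvd_of_emod_eq_zero h6
    rw [ht] at h
    have : 2 * t * (2 * t + cY x) + 2 * cY x ^ 2 = 2 * (t * (2 * t + cY x) + cY x ^ 2) := by ring
    omega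
  · rcases Int.emod_two_eq_zero_or_one (cY x) with h7 | h7
    · exact ⟨h6, h7⟩
    · obtain ⟨t, ht⟩ := Int.dvd_of_emod_eq_zero (show (cX x + cY x) % 2 = 0 by omega)
      rw [ht] at h
      have : cX x * (2 * t) + 2 * cY x ^ 2 = 2 * (cX x * t + cY x ^ 2) := by ring
      omega

/-- the norm modulo four -/
lemma nR_mod4 {x : RR} (h : nR x % 2 = 1) : nR x % 4 = (1 + cY x) % 4 := by
  obtain ⟨h1, h2⟩ := par h
  obtain ⟨X, hX⟩ : ∃ X : ℤ, cX x = 1 + 2 * X := ⟨(cX x - 1) / 2, by omega⟩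
  obtain ⟨z, hz⟩ : ∃ z : ℤ, cY x = 2 * z := ⟨cY x / 2, by omega⟩
  unfold nR
  rw [hX, hz]
  have : (1 + 2 * X) ^ 2 + (1 + 2 * X) * (2 * z) + 2 * (2 * z) ^ 2 =
    1 + 2 * z + 4 * (X + X ^ 2 + X * z + 2 * z ^ 2) := by ring
  omega

/-- the normalised elements of odd norm -/
lemma N1_iff {x : RR} (h : nR x % 2 = 1) : N1 x ↔ cX x % 4 = 1 := by
  obtain ⟨h1, h2⟩ := par h
  have ha := cXY_aR
  have haa : cX (aR ^ 2) = -2 ∧ cY (aR ^ 2) = 1 := by
    have := cXY_mul aR aR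
    rw [ha.1, ha.2] at this
    rw [pow_two]
    constructor
    · rw [this.1]; norm_num
    · rw [this.2]; norm_num
  constructor
  · rintro ⟨u, hu⟩
    have h3 := cXY_add 1 (aR ^ 2 * u)
    have h4 := cXY_mul (aR ^ 2) u
    rw [← hu, cXY_one.1, cXY_one.2, h4.1, h4.2, haa.1, haa.2] at h3
    omega
  · intro h3
    refine ⟨(((cY x + (1 - cX x) / 2) / 2 : ℤ) : RR) +
      ((((1 - cX x) / 2 - cY x) / 2 : ℤ) : RR) * aR, ?_⟩
    obtain ⟨X, hX⟩ : ∃ X : ℤ, cX x = 1 + 4 * X := ⟨(cX x - 1) / 4, by omega⟩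
    obtain ⟨z, hz⟩ : ∃ z : ℤ, cY x = 2 * z := ⟨cY x / 2, by omega⟩
    have e1 : (cY x + (1 - cX x) / 2) / 2 = z - X := by omega
    have e2 : ((1 - cX x) / 2 - cY x) / 2 = -X - z := by omega
    rw [e1, e2]
    have e := dec x
    rw [hX, hz] at e
    have h5 : aR ^ 2 = aR - 2 := by
      apply RR_ext
      · rw [haa.1, sub_eq_add_neg, (cXY_add _ _).1, (cXY_neg _).1, ha.1]
        have := (cXY_nat 2).1
        push_cast at this
        rw [this]
        norm_num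
      · rw [haa.2, sub_eq_add_neg, (cXY_add _ _).2, (cXY_neg _).2, ha.2]
        have := (cXY_nat 2).2
        push_cast at this
        rw [this]
        norm_num
    rw [e]
    push_cast
    have h6 : aR ^ 3 = aR ^ 2 * aR := by ring
    linear_combination ((X : RR) + z) * h6 - ((z : RR) - X - (X + z) * aR + (-X - z)) * h5

/-- the symbols of the integers modulo a prime of degree one -/
lemma sy_int {p : ℕ} (hpp : p.Prime) {ϖ : RR} (hN : nR ϖ = p) (m : ℤ) :
    sy ϖ (m : RR) = qch p m := by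
  have _ : Fact p.Prime := ⟨hpp⟩
  obtain ⟨φ, hφ⟩ := red hpp hN
  have hint : ∀ m : ℤ, φ (m : RR) = (m : ZMod p) := fun m => map_intCast φ m
  have hsur : Function.Surjective φ := by
    intro t
    obtain ⟨s, hs⟩ := ZMod.intCast_surjective t
    exact ⟨(s : RR), by rw [hint, hs]⟩
  rw [sy_eq φ hsur hφ, hint, qch_eq]

lemma prime_of_nR {p : ℕ} (hpp : p.Prime) {ϖ : RR} (hN : nR ϖ = p) : Prime ϖ :=
  (irr_of_prime_norm (by rw [hN]; simpa using hpp)).prime

/-- the symbol modulo a prime of degree one, in coordinates -/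
lemma sy_deg1 {p : ℕ} (hpp : p.Prime) {ϖ : RR} (hN : nR ϖ = p) (z : RR) :
    qch p (cY ϖ) * sy ϖ z = qch p (cX z * cY ϖ - cX ϖ * cY z) := by
  rw [← sy_int hpp hN, ← sy_int hpp hN, ← sy_mul' (prime_of_nR hpp hN)]
  apply sy_per
  rw [Ideal.mem_span_singleton']
  refine ⟨((cY z : ℤ) : RR), ?_⟩
  have e1 := dec z
  have e2 := dec ϖ
  generalize cX z = U at *
  generalize cY z = V at *
  generalize cX ϖ = X at *
  generalize cY ϖ = Y at *
  rw [e1, e2]
  push_cast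
  ring

lemma not_dvd_cY {p : ℕ} (hpp : p.Prime) {x : RR} (hN : nR x = p) : ¬ (p : ℤ) ∣ cY x := by
  intro h
  have hp' : Prime (p : ℤ) := Nat.prime_iff_prime_int.1 hpp
  have h0 : (p : ℤ) = cX x ^ 2 + cX x * cY x + 2 * cY x ^ 2 := by rw [← hN]; rfl
  obtain ⟨b, hb⟩ := h
  have h1 : (p : ℤ) ∣ cX x ^ 2 := by
    refine ⟨1 - cX x * b - 2 * b * cY x, ?_⟩
    rw [hb] at h0 ⊢
    linear_combination -h0
  obtain ⟨a, ha⟩ := hp'.dvd_of_dvd_pow h1
  rw [ha, hb] at h0
  have h2 : (p : ℤ) ≠ 0 := hp'.ne_zero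
  have h3 : (p : ℤ) ∣ 1 := by
    refine ⟨a ^ 2 + a * b + 2 * b ^ 2, ?_⟩
    apply mul_left_cancel₀ h2
    linear_combination h0
  exact hp'.not_unit (isUnit_of_dvd_one h3)

lemma cop_of_not {p : ℕ} (hpp : p.Prime) {m : ℤ} (h : ¬ (p : ℤ) ∣ m) : IsCoprime m (p : ℤ) :=
  ((Nat.prime_iff_prime_int.1 hpp).coprime_iff_not_dvd.2 h).symm

lemma qch_sgn {p : ℕ} (hpp : p.Prime) {m : ℤ} (h : ¬ (p : ℤ) ∣ m) :
    qch p m = 1 ∨ qch p m = -1 := by
  rcases qch_val hpp m with h1 | h1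
  · exact absurd h1.1 h
  · exact h1.2

/-- **the reciprocity law for primes of degree one** -/
theorem rcp11 {p l : ℕ} (hp : p.Prime) (hl : l.Prime) (hp2 : p % 2 = 1) (hl2 : l % 2 = 1)
    {x y : RR} (hx : nR x = p) (hy : nR y = l) (nx : N1 x) (ny : N1 y) (hxy : x ∉ sp y)
    (hyx : y ∉ sp x) : sy x y * sy y x = if p % 4 = 3 ∧ l % 4 = 3 then -1 else 1 := by
  have hx2 : nR x % 2 = 1 := by rw [hx]; omega
  have hy2 : nR y % 2 = 1 := by rw [hy]; omega
  have nx' := (N1_iff hx2).1 nx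
  have ny' := (N1_iff hy2).1 ny
  have hp4 := nR_mod4 hx2
  have hl4 := nR_mod4 hy2
  rw [hx] at hp4
  rw [hy] at hl4
  obtain ⟨-, hYe⟩ := par hx2
  obtain ⟨-, hVe⟩ := par hy2
  have h1 := sy_deg1 hp hx y
  have h2 := sy_deg1 hl hy x
  -- the product
  obtain ⟨W, hW⟩ : ∃ W : ℤ, W = cX y * cY x - cX x * cY y := ⟨_, rfl⟩
  rw [← hW] at h1
  have hW' : cX x * cY y - cX y * cY x = -1 * W := by rw [hW]; ring
  rw [hW', qch_mul] at h2
  have hz := cXY_mul x (cj y)
  rw [(cXY_cj y).1, (cXY_cj y).2] at hz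
  have hzW : cY (x * cj y) = W := by rw [hz.2, hW]; ring
  have hYp := qch_sgn hp (not_dvd_cY hp hx)
  have hVl := qch_sgn hl (not_dvd_cY hl hy)
  have hs1 := sy_sgn hyx
  have hs2 := sy_sgn hxy
  have hWp : ¬ (p : ℤ) ∣ W := by
    intro h
    rcases qch_val hp W with h3 | h3
    · rw [h3.2] at h1
      rcases sgn_mul hYp hs1 with h4 | h4 <;> rw [h4] at h1 <;> norm_num at h1
    · exact h3.1 h
  have hWl : ¬ (l : ℤ) ∣ W := by
    intro h
    rcases qch_val hl W with h3 | h3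
    · rw [h3.2, mul_zero] at h2
      rcases sgn_mul hVl hs2 with h4 | h4 <;> rw [h4] at h2 <;> norm_num at h2
    · exact h3.1 h
  have hW0 : W ≠ 0 := fun h => hWp (h ▸ dvd_zero _)
  have hcop : IsCoprime W ((p * l : ℕ) : ℤ) := by
    push_cast
    exact (cop_of_not hp hWp).mul_right (cop_of_not hl hWl)
  have hnz : ((p * l : ℕ) : ℤ) = cX (x * cj y) ^ 2 + cX (x * cj y) * W + 2 * W ^ 2 := by
    have h5 : nR (x * cj y) = ((p * l : ℕ) : ℤ) := by
      rw [nR_mul, hx]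
      have : nR (cj y) = nR y := by
        unfold nR
        rw [(cXY_cj y).1, (cXY_cj y).2]
        ring
      rw [this, hy]
      push_cast
      rfl
    rw [← h5, ← hzW]
    rfl
  have f1 := fJ (X := cX x) (Y := cY x) (n := p) (by rw [← hx]; rfl) hp2
    (cop_of_not hp (not_dvd_cY hp hx)) (fun h => not_dvd_cY hp hx (h ▸ dvd_zero _))
  have f2 := fJ (X := cX y) (Y := cY y) (n := l) (by rw [← hy]; rfl) hl2
    (cop_of_not hl (not_dvd_cY hl hy)) (fun h => not_dvd_cY hl hy (h ▸ dvd_zero _))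
  have f3 := fJ (X := cX (x * cj y)) (Y := W) (n := p * l) hnz (by
    rw [Nat.mul_mod, hp2, hl2]) hcop hW0
  have f4 : J(-1 | l) = if l % 4 = 1 then 1 else -1 := by
    rw [jacobiSym.at_neg_one (Nat.odd_iff.2 hl2), ZMod.χ₄_nat_eq_if_mod_four, if_neg (by omega)]
  have _ : NeZero p := ⟨hp.ne_zero⟩
  have _ : NeZero l := ⟨hl.ne_zero⟩
  have f5 : qch (p * l) W = qch p W * qch l W := by
    unfold qch
    rw [jacobiSym.mul_right]
    push_cast
    rfl
  have f1' : qch p (cY x) = ((if cY x % 4 = 0 then 1 else if cX x % 4 = 1 then -1 else 1 : ℤ) : ℂ) := by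
    rw [← f1]; rfl
  have f2' : qch l (cY y) = ((if cY y % 4 = 0 then 1 else if cX y % 4 = 1 then -1 else 1 : ℤ) : ℂ) := by
    rw [← f2]; rfl
  have f3' : qch p W * qch l W = ((if W % 4 = 0 then 1 else
      if cX (x * cj y) % 4 = 1 then -1 else 1 : ℤ) : ℂ) := by
    rw [← f5, ← f3]; rfl
  have f4' : qch l (-1) = ((if l % 4 = 1 then 1 else -1 : ℤ) : ℂ) := by
    rw [← f4]; rfl
  have key : (qch p (cY x) * qch l (cY y)) * (sy x y * sy y x) =
      qch l (-1) * (qch p W * qch l W) := by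
    linear_combination (qch l (cY y) * sy y x) * h1 + qch p W * h2
  rw [f1', f2', f3', f4', if_pos nx', if_pos ny'] at key
  obtain ⟨Xa, hXa⟩ : ∃ a : ℤ, cX x = 1 + 4 * a := ⟨(cX x - 1) / 4, by omega⟩
  obtain ⟨Ua, hUa⟩ : ∃ a : ℤ, cX y = 1 + 4 * a := ⟨(cX y - 1) / 4, by omega⟩
  obtain ⟨ya, hya⟩ : ∃ a : ℤ, cY x = 2 * a := ⟨cY x / 2, by omega⟩
  obtain ⟨va, hva⟩ : ∃ a : ℤ, cY y = 2 * a := ⟨cY y / 2, by omega⟩
  have hWm : W % 4 = (2 * ya - 2 * va) % 4 := by
    rw [hW, hXa, hUa, hya, hva]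
    have : (1 + 4 * Ua) * (2 * ya) - (1 + 4 * Xa) * (2 * va) = 2 * ya - 2 * va +
      4 * (2 * Ua * ya - 2 * Xa * va) := by ring
    omega
  have hAm : cX (x * cj y) % 4 = (1 + 2 * va) % 4 := by
    rw [hz.1, hXa, hUa, hya, hva]
    have : (1 + 4 * Xa) * (1 + 4 * Ua + 2 * va) - 2 * (2 * ya) * -(2 * va) = 1 + 2 * va +
      4 * (Ua + Xa * (1 + 4 * Ua + 2 * va) + 2 * ya * va) := by ring
    omega
  rw [hya] at key hp4
  rw [hva] at key hl4
  by_cases a1 : ya % 2 = 0 <;> by_cases a2 : va % 2 = 0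
  · rw [if_pos (show 2 * ya % 4 = 0 by omega), if_pos (show 2 * va % 4 = 0 by omega),
      if_pos (show W % 4 = 0 by omega), if_pos (show l % 4 = 1 by omega)] at key
    rw [if_neg (by omega)]
    push_cast at key
    linear_combination key
  · rw [if_pos (show 2 * ya % 4 = 0 by omega), if_neg (show ¬ 2 * va % 4 = 0 by omega),
      if_neg (show ¬ W % 4 = 0 by omega), if_neg (show ¬ cX (x * cj y) % 4 = 1 by omega),
      if_neg (show ¬ l % 4 = 1 by omega)] at key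
    rw [if_neg (by omega)]
    push_cast at key
    linear_combination -key
  · rw [if_neg (show ¬ 2 * ya % 4 = 0 by omega), if_pos (show 2 * va % 4 = 0 by omega),
      if_neg (show ¬ W % 4 = 0 by omega), if_pos (show cX (x * cj y) % 4 = 1 by omega),
      if_pos (show l % 4 = 1 by omega)] at key
    rw [if_neg (by omega)]
    push_cast at key
    linear_combination -key
  · rw [if_neg (show ¬ 2 * ya % 4 = 0 by omega), if_neg (show ¬ 2 * va % 4 = 0 by omega),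
      if_pos (show W % 4 = 0 by omega), if_neg (show ¬ l % 4 = 1 by omega)] at key
    rw [if_pos (by omega)]
    push_cast at key
    linear_combination key

end Pool.Agent.L0h4.TW
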